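import Pool.Agent.Y881.DS.ThickMain

set_option autoImplicit false
set_option linter.unusedSectionVars false

/-! # Difference sums over sets nearly invariant under a short progression -/

open Finset
open scoped Pointwise

namespace Pool.Agent.Y881.DS

open Pool.Agent.Y881.SP Pool.Agent.TH7.PG

theorem thick_diff (ε : ℝ) (hε : 0 < ε) : ∃ κ : ℝ, 0 < κ ∧ ∀ ϑ : ℝ, 0 < ϑ →
    ∃ τ : ℝ, 0 < τ ∧ ∃ p₀ : ℕ, ∀ (p : ℕ) [Fact p.Prime], p₀ ≤ p →
    ∀ χ : DirichletCharacter ℂ p, χ ≠ 1 →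
    ∀ (A B : Finset (ZMod p)) (z z' : ZMod p) (N N' : ℕ), z ≠ 0 → z' ≠ 0 →
      (p : ℝ) ^ ε ≤ N → (p : ℝ) ^ ε ≤ N' →
      ((A + (range N).image fun i : ℕ => (i : ZMod p) * z).card : ℝ) ≤ (p : ℝ) ^ τ * A.card →
      ((B + (range N').image fun i : ℕ => (i : ZMod p) * z').card : ℝ) ≤ (p : ℝ) ^ τ * B.card →
      (∀ X : Finset (ZMod p), (X.card : ℝ) ≤ (p : ℝ) ^ (1 / 2 - κ) →
        (((A ×ˢ B).filter fun t => t.1 - t.2 ∈ X).card : ℝ) ≤
          (p : ℝ) ^ (-ϑ) * (A.card * B.card)) →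
      ∀ f g : ZMod p → ℂ, ‖∑ a ∈ A, ∑ b ∈ B, f a * g b * χ (a - b)‖ ≤ (p : ℝ) ^ (-τ) *
        ((Real.sqrt A.card * Real.sqrt B.card) *
          (Real.sqrt (∑ a ∈ A, ‖f a‖ ^ 2) * Real.sqrt (∑ b ∈ B, ‖g b‖ ^ 2))) := by
  obtain ⟨κ, hκ, h⟩ := thick_local ε hε
  refine ⟨κ, hκ, fun ϑ hϑ => ?_⟩
  obtain ⟨τ, hτ, p₀, h⟩ := h ϑ hϑ
  refine ⟨τ, hτ, p₀, ?_⟩
  intro p _ hp χ hχ A B z z' N N' hz hz' hN hN' hA hB hAB f g
  have hcard : (-B).card = B.card := Finset.card_neg B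
  have hB' : (((-B) + (range N').image fun i : ℕ => (i : ZMod p) * (-z')).card : ℝ) ≤
      (p : ℝ) ^ τ * (-B).card := by
    have e : (-B) + ((range N').image fun i : ℕ => (i : ZMod p) * (-z')) =
        -(B + (range N').image fun i : ℕ => (i : ZMod p) * z') := by
      rw [neg_add]
      congr 1
      ext x
      simp only [mem_image, mem_neg, mem_range]
      constructor
      · rintro ⟨i, hi, rfl⟩
        exact ⟨(i : ZMod p) * z', ⟨i, hi, rfl⟩, by ring⟩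
      · rintro ⟨y, ⟨i, hi, rfl⟩, rfl⟩
        exact ⟨i, hi, by ring⟩
    rw [e, Finset.card_neg, hcard]
    exact hB
  have hAB' : ∀ X : Finset (ZMod p), (X.card : ℝ) ≤ (p : ℝ) ^ (1 / 2 - κ) →
        (((A ×ˢ (-B)).filter fun t => t.1 + t.2 ∈ X).card : ℝ) ≤
          (p : ℝ) ^ (-ϑ) * (A.card * (-B).card) := by
    intro X hX
    rw [hcard]
    refine le_trans ?_ (hAB X hX)
    have h1 : ((A ×ˢ (-B)).filter fun t => t.1 + t.2 ∈ X).card ≤
        ((A ×ˢ B).filter fun t => t.1 - t.2 ∈ X).card := by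
      refine card_le_card_of_injOn (fun t => (t.1, -t.2)) ?_ ?_
      · intro t ht
        have h2 := mem_filter.1 (mem_coe.1 ht)
        have h3 := mem_product.1 h2.1
        refine mem_coe.2 (mem_filter.2 ⟨mem_product.2 ⟨h3.1, by simpa using h3.2⟩, ?_⟩)
        show t.1 - -t.2 ∈ X
        rw [sub_neg_eq_add]
        exact h2.2
      · intro a _ b _ hab
        have h2 := Prod.ext_iff.1 hab
        exact Prod.ext h2.1 (neg_inj.1 h2.2)
    exact_mod_cast h1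
  have h1 := h p hp χ hχ A (-B) z (-z') N N' hz (neg_ne_zero.2 hz') hN hN' hA hB' hAB' f
    (fun b => g (-b))
  have hs : ∀ F : ZMod p → ℂ, ∑ b ∈ -B, F b = ∑ b ∈ B, F (-b) := by
    intro F
    refine sum_bij (fun b _ => -b) (fun b hb => by simpa using hb)
      (fun a _ b _ hab => neg_inj.1 hab) (fun b hb => ⟨-b, by simpa using hb, neg_neg b⟩)
      (fun b _ => by rw [neg_neg])
  have hsR : ∀ F : ZMod p → ℝ, ∑ b ∈ -B, F b = ∑ b ∈ B, F (-b) := by
    intro F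
    refine sum_bij (fun b _ => -b) (fun b hb => by simpa using hb)
      (fun a _ b _ hab => neg_inj.1 hab) (fun b hb => ⟨-b, by simpa using hb, neg_neg b⟩)
      (fun b _ => by rw [neg_neg])
  have e1 : ∑ a ∈ A, ∑ b ∈ -B, f a * g (-b) * χ (a + b) =
      ∑ a ∈ A, ∑ b ∈ B, f a * g b * χ (a - b) := by
    refine sum_congr rfl fun a _ => ?_
    rw [hs]
    refine sum_congr rfl fun b _ => ?_
    rw [neg_neg, sub_eq_add_neg]
  have e2 : ∑ b ∈ -B, ‖g (-b)‖ ^ 2 = ∑ b ∈ B, ‖g b‖ ^ 2 := by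
    rw [hsR]
    refine sum_congr rfl fun b _ => ?_
    rw [neg_neg]
  rw [e1, e2, hcard] at h1
  exact h1

theorem pairs_sq {p : ℕ} (A X : Finset (ZMod p)) :
    (((A ×ˢ A).filter fun t => t.1 - t.2 ∈ X).card : ℝ) ^ 2 ≤
      X.card * (Finset.addEnergy A A : ℝ) := by
  classical
  have h1 := Finset.card_sq_le_card_mul_addEnergy A (-A) X
  have h2 : ((A ×ˢ A).filter fun t => t.1 - t.2 ∈ X).card ≤
      ((A ×ˢ (-A)).filter fun t => t.1 + t.2 ∈ X).card := by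
    refine card_le_card_of_injOn (fun t => (t.1, -t.2)) ?_ ?_
    · intro t ht
      have h2 := mem_filter.1 (mem_coe.1 ht)
      have h3 := mem_product.1 h2.1
      refine mem_coe.2 (mem_filter.2 ⟨mem_product.2 ⟨h3.1, by simpa using h3.2⟩, ?_⟩)
      show t.1 + -t.2 ∈ X
      rw [← sub_eq_add_neg]
      exact h2.2
    · intro a _ b _ hab
      have h2 := Prod.ext_iff.1 hab
      exact Prod.ext h2.1 (neg_inj.1 h2.2)
  have h3 : Finset.addEnergy A (-A) ≤ Finset.addEnergy A A := by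
    unfold Finset.addEnergy
    refine card_le_card_of_injOn (fun x => (x.1, (-x.2.2, -x.2.1))) ?_ ?_
    · intro x hx
      have h4 := mem_filter.1 (mem_coe.1 hx)
      have h5 := mem_product.1 h4.1
      have h6 := mem_product.1 h5.2
      refine mem_coe.2 (mem_filter.2 ⟨mem_product.2 ⟨h5.1, mem_product.2
        ⟨by simpa using h6.2, by simpa using h6.1⟩⟩, ?_⟩)
      show x.1.1 + -x.2.2 = x.1.2 + -x.2.1
      linear_combination h4.2
    · intro a _ b _ hab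
      have h2 := Prod.ext_iff.1 hab
      have h3 := Prod.ext_iff.1 h2.2
      exact Prod.ext h2.1 (Prod.ext (neg_inj.1 h3.2) (neg_inj.1 h3.1))
  have h4 : ((A ×ˢ A).filter fun t => t.1 - t.2 ∈ X).card ^ 2 ≤
      X.card * Finset.addEnergy A A := by
    refine (Nat.pow_le_pow_left h2 2).trans (h1.trans ?_)
    exact Nat.mul_le_mul_left _ h3
  exact_mod_cast h4

theorem mob_sub {p : ℕ} [Fact p.Prime] (α β γ δ a b : ZMod p) (ha : γ * a + δ ≠ 0)
    (hb : γ * b + δ ≠ 0) :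
    (α * a + β) * (γ * a + δ)⁻¹ - (α * b + β) * (γ * b + δ)⁻¹ =
      (α * δ - β * γ) * (a - b) * ((γ * a + δ)⁻¹ * (γ * b + δ)⁻¹) := by
  have hu := mul_inv_cancel₀ ha
  have hv := mul_inv_cancel₀ hb
  generalize (γ * a + δ)⁻¹ = u at *
  generalize (γ * b + δ)⁻¹ = v at *
  linear_combination (-(α * a + β) * u) * hv + ((α * b + β) * v) * hu

/-- Q1 for thick sets of critical additive energy, their dense subsets and the Moebius images -/
theorem thick_q1 (ε : ℝ) (hε : 0 < ε) : ∃ τ : ℝ, 0 < τ ∧ ∃ p₀ : ℕ, ∀ (p : ℕ) [Fact p.Prime],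
    p₀ ≤ p → ∀ χ : DirichletCharacter ℂ p, χ ≠ 1 →
    ∀ (A : Finset (ZMod p)) (z : ZMod p) (N : ℕ), A.Nonempty → z ≠ 0 → (p : ℝ) ^ ε ≤ N →
      ((A + (range N).image fun i : ℕ => (i : ZMod p) * z).card : ℝ) ≤ (p : ℝ) ^ τ * A.card →
      (Finset.addEnergy A A : ℝ) ≤ (p : ℝ) ^ (-(1 / 2) + τ) * (A.card : ℝ) ^ 4 →
      ∀ A' : Finset (ZMod p), A' ⊆ A → (A.card : ℝ) ≤ (p : ℝ) ^ τ * A'.card →
        ∀ α β γ δ : ZMod p, α * δ - β * γ ≠ 0 → (∀ a ∈ A', γ * a + δ ≠ 0) →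
          ∀ C : Finset (ZMod p), C = (A'.image fun a => (α * a + β) * (γ * a + δ)⁻¹) →
            ‖∑ x ∈ C, ∑ y ∈ C, χ (x - y)‖ < (C.card : ℝ) ^ (2 - τ) := by
  classical
  obtain ⟨κ, hκ, h⟩ := thick_diff ε hε
  obtain ⟨τ₁, hτ₁, p₀, h⟩ := h (κ / 4) (by positivity)
  obtain ⟨τ, hτ⟩ : ∃ e : ℝ, e = min (min (τ₁ / 4) (κ / 2)) 1 := ⟨_, rfl⟩
  have hτ0 : 0 < τ := by
    rw [hτ]
    exact lt_min (lt_min (by positivity) (by positivity)) one_pos
  have hτ2 : τ ≤ τ₁ / 4 := by rw [hτ]; exact (min_le_left _ _).trans (min_le_left _ _)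
  have hτ3 : τ ≤ κ / 2 := by rw [hτ]; exact (min_le_left _ _).trans (min_le_right _ _)
  have hτ4 : τ ≤ 1 := by rw [hτ]; exact min_le_right _ _
  refine ⟨τ, hτ0, p₀, ?_⟩
  intro p _ hp χ hχ A z N hne hz hN hA hE A' hA' hAA' α β γ δ hdet hpole C hC
  have hp1 : (1 : ℝ) < p := by exact_mod_cast (Fact.out : p.Prime).one_lt
  have hp0 : (0 : ℝ) < p := by linarith
  have hA1 : ((A + (range N).image fun i : ℕ => (i : ZMod p) * z).card : ℝ) ≤
      (p : ℝ) ^ τ₁ * A.card := by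
    refine hA.trans (mul_le_mul_of_nonneg_right ?_ (Nat.cast_nonneg _))
    exact Real.rpow_le_rpow_of_exponent_le hp1.le (by linarith)
  have hAc : (0 : ℝ) < A.card := by exact_mod_cast hne.card_pos
  have hA'c : (0 : ℝ) < A'.card := by
    by_contra hcon
    have h1 : (A'.card : ℝ) = 0 := le_antisymm (not_lt.1 hcon) (Nat.cast_nonneg _)
    rw [h1, mul_zero] at hAA'
    linarith
  have hloc : ∀ X : Finset (ZMod p), (X.card : ℝ) ≤ (p : ℝ) ^ (1 / 2 - κ) →
        (((A ×ˢ A).filter fun t => t.1 - t.2 ∈ X).card : ℝ) ≤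
          (p : ℝ) ^ (-(κ / 4)) * (A.card * A.card) := by
    intro X hX
    have h1 := pairs_sq A X
    refine le_of_sq_le_sq ?_ (by positivity)
    have e : (p : ℝ) ^ (1 / 2 - κ) * (p : ℝ) ^ (-(1 / 2) + τ) ≤ ((p : ℝ) ^ (-(κ / 4))) ^ 2 := by
      rw [← Real.rpow_add hp0, ← Real.rpow_natCast ((p : ℝ) ^ (-(κ / 4))),
        ← Real.rpow_mul hp0.le]
      refine Real.rpow_le_rpow_of_exponent_le hp1.le ?_
      push_cast
      linarith
    calc _ ≤ _ := h1
      _ ≤ (p : ℝ) ^ (1 / 2 - κ) * ((p : ℝ) ^ (-(1 / 2) + τ) * (A.card : ℝ) ^ 4) :=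
          mul_le_mul hX hE (Nat.cast_nonneg _) (by positivity)
      _ = ((p : ℝ) ^ (1 / 2 - κ) * (p : ℝ) ^ (-(1 / 2) + τ)) * (A.card : ℝ) ^ 4 := by ring
      _ ≤ ((p : ℝ) ^ (-(κ / 4))) ^ 2 * (A.card : ℝ) ^ 4 :=
          mul_le_mul_of_nonneg_right e (by positivity)
      _ = _ := by ring
  -- the Moebius image
  have hinj : Set.InjOn (fun a => (α * a + β) * (γ * a + δ)⁻¹) (A' : Set (ZMod p)) := by
    intro a ha b hb hab
    have h1 := mob_sub α β γ δ a b (hpole a (mem_coe.1 ha)) (hpole b (mem_coe.1 hb))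
    have h2 : (α * a + β) * (γ * a + δ)⁻¹ - (α * b + β) * (γ * b + δ)⁻¹ = 0 :=
      sub_eq_zero.2 hab
    rw [h2] at h1
    rcases mul_eq_zero.1 h1.symm with h3 | h3
    · rcases mul_eq_zero.1 h3 with h4 | h4
      · exact absurd h4 hdet
      · exact sub_eq_zero.1 h4
    · rcases mul_eq_zero.1 h3 with h4 | h4
      · exact absurd (inv_eq_zero.1 h4) (hpole a (mem_coe.1 ha))
      · exact absurd (inv_eq_zero.1 h4) (hpole b (mem_coe.1 hb))
  have hCc : C.card = A'.card := by rw [hC, card_image_of_injOn hinj]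
  set f : ZMod p → ℂ := fun a => if a ∈ A' then χ (α * δ - β * γ) * χ ((γ * a + δ)⁻¹) else 0
    with hf
  set g : ZMod p → ℂ := fun a => if a ∈ A' then χ ((γ * a + δ)⁻¹) else 0 with hg
  have hfn : ∀ a, ‖f a‖ ≤ if a ∈ A' then 1 else 0 := by
    intro a
    rw [hf]
    by_cases ha : a ∈ A'
    · simp only [if_pos ha, norm_mul]
      exact mul_le_one₀ (χ.norm_le_one _) (norm_nonneg _) (χ.norm_le_one _)
    · simp only [if_neg ha, norm_zero, le_refl]
  have hgn : ∀ a, ‖g a‖ ≤ if a ∈ A' then 1 else 0 := by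
    intro a
    rw [hg]
    by_cases ha : a ∈ A'
    · simp only [if_pos ha]
      exact χ.norm_le_one _
    · simp only [if_neg ha, norm_zero, le_refl]
  have hnorm : ∀ F : ZMod p → ℂ, (∀ a, ‖F a‖ ≤ if a ∈ A' then 1 else 0) →
      Real.sqrt (∑ a ∈ A, ‖F a‖ ^ 2) ≤ Real.sqrt A'.card := by
    intro F hF
    refine Real.sqrt_le_sqrt ?_
    calc ∑ a ∈ A, ‖F a‖ ^ 2 ≤ ∑ a ∈ A, (if a ∈ A' then (1 : ℝ) else 0) := by
          refine sum_le_sum fun a _ => ?_
          have h1 := hF a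
          by_cases ha : a ∈ A'
          · rw [if_pos ha] at h1 ⊢
            exact pow_le_one₀ (norm_nonneg _) h1
          · rw [if_neg ha] at h1 ⊢
            have : ‖F a‖ = 0 := le_antisymm h1 (norm_nonneg _)
            rw [this]
            norm_num
      _ = ((A.filter fun a => a ∈ A').card : ℝ) := by rw [sum_boole]
      _ = A'.card := by
          congr 2
          rw [filter_mem_eq_inter]
          exact inter_eq_right.2 hA'
  have hsum : ∑ x ∈ C, ∑ y ∈ C, χ (x - y) = ∑ a ∈ A, ∑ b ∈ A, f a * g b * χ (a - b) := by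
    rw [hC, sum_image hinj]
    have e1 : ∀ F : ZMod p → ℂ, ∑ a ∈ A, (if a ∈ A' then F a else 0) = ∑ a ∈ A', F a := by
      intro F
      rw [← sum_filter, filter_mem_eq_inter, inter_eq_right.2 hA']
    have e2 : ∑ a ∈ A, ∑ b ∈ A, f a * g b * χ (a - b) = ∑ a ∈ A, if a ∈ A' then
        (∑ b ∈ A', χ (α * δ - β * γ) * χ ((γ * a + δ)⁻¹) * χ ((γ * b + δ)⁻¹) * χ (a - b))
          else 0 := by
      refine sum_congr rfl fun a _ => ?_
      by_cases ha : a ∈ A'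
      · rw [if_pos ha, ← e1]
        refine sum_congr rfl fun b _ => ?_
        simp only [hf, hg, if_pos ha]
        by_cases hb : b ∈ A'
        · simp only [if_pos hb]
        · simp only [if_neg hb, mul_zero, zero_mul]
      · rw [if_neg ha]
        refine sum_eq_zero fun b _ => ?_
        simp only [hf, if_neg ha, zero_mul]
    rw [e2, e1]
    refine sum_congr rfl fun a ha => ?_
    rw [sum_image hinj]
    refine sum_congr rfl fun b hb => ?_
    rw [mob_sub α β γ δ a b (hpole a ha) (hpole b hb), map_mul, map_mul, map_mul]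
    ring
  have h1 := h p hp χ hχ A A z z N N hz hz hN hN hA1 hA1 hloc f g
  have h2 : (p : ℝ) ^ (-τ₁) * ((Real.sqrt A.card * Real.sqrt A.card) *
      (Real.sqrt (∑ a ∈ A, ‖f a‖ ^ 2) * Real.sqrt (∑ b ∈ A, ‖g b‖ ^ 2))) ≤
      (p : ℝ) ^ (-τ₁) * (A.card * A'.card) := by
    refine mul_le_mul_of_nonneg_left ?_ (by positivity)
    rw [Real.mul_self_sqrt (Nat.cast_nonneg _)]
    refine mul_le_mul_of_nonneg_left ?_ (Nat.cast_nonneg _)
    calc _ ≤ Real.sqrt A'.card * Real.sqrt A'.card :=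
          mul_le_mul (hnorm f hfn) (hnorm g hgn) (Real.sqrt_nonneg _) (Real.sqrt_nonneg _)
      _ = A'.card := Real.mul_self_sqrt (Nat.cast_nonneg _)
  rw [hsum, hCc]
  refine lt_of_le_of_lt (h1.trans h2) ?_
  have hA'p : (A'.card : ℝ) ≤ p := by
    have := card_le_univ A'
    rw [ZMod.card] at this
    exact_mod_cast this
  have h3 : (A'.card : ℝ) ^ τ ≤ (p : ℝ) ^ τ := Real.rpow_le_rpow hA'c.le hA'p hτ0.le
  have h4 : (A'.card : ℝ) ^ (2 - τ) = (A'.card : ℝ) ^ 2 / (A'.card : ℝ) ^ τ := by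
    rw [Real.rpow_sub hA'c, Real.rpow_two]
  rw [h4, lt_div_iff₀ (by positivity)]
  calc (p : ℝ) ^ (-τ₁) * (A.card * A'.card) * (A'.card : ℝ) ^ τ
      ≤ (p : ℝ) ^ (-τ₁) * (((p : ℝ) ^ τ * A'.card) * A'.card) * (p : ℝ) ^ τ := by
        refine mul_le_mul ?_ h3 (by positivity) (by positivity)
        refine mul_le_mul_of_nonneg_left ?_ (by positivity)
        exact mul_le_mul_of_nonneg_right hAA' hA'c.le
    _ = (p : ℝ) ^ (-τ₁ + τ + τ) * (A'.card : ℝ) ^ 2 := by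
        rw [Real.rpow_add hp0, Real.rpow_add hp0]
        ring
    _ < 1 * (A'.card : ℝ) ^ 2 := by
        refine mul_lt_mul_of_pos_right ?_ (by positivity)
        exact Real.rpow_lt_one_of_one_lt_of_neg hp1 (by linarith)
    _ = _ := one_mul _

end Pool.Agent.Y881.DS
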