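import Pool.Agent.W27.SD.Gap
import Pool.Agent.Y881.DS.ThickFin

set_option autoImplicit false
set_option linter.unusedSectionVars false

/-! # Sets nearly invariant under a set of bounded doubling are nearly invariant under a
progression -/

open Finset
open scoped Pointwise

namespace Pool.Agent.Y881.DS

open Pool.Agent.Y881.SP Pool.Agent.TH7.PG

theorem ap_inv (ε K : ℝ) (hε : 0 < ε) : ∃ ε' : ℝ, 0 < ε' ∧ ∃ C : ℝ, 1 ≤ C ∧ ∃ p₀ : ℕ,
    ∀ (p : ℕ) [Fact p.Prime], p₀ ≤ p → ∀ A P : Finset (ZMod p), (p : ℝ) ^ ε ≤ P.card →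
      ((P + P).card : ℝ) ≤ K * P.card → ∃ (z : ZMod p) (N : ℕ), z ≠ 0 ∧ (p : ℝ) ^ ε' ≤ N ∧
        ((A + (range N).image fun i : ℕ => (i : ZMod p) * z).card : ℝ) ≤ C * (A + P).card := by
  classical
  obtain ⟨C, d, hC1, hd1, hcov⟩ := Pool.Agent.W27.SD.ap_cover (K := max K 1) (le_max_right _ _)
  obtain ⟨e, he⟩ : ∃ e : ℝ, e = min ε 1 / (2 * d) := ⟨_, rfl⟩
  have hd0 : (0 : ℝ) < d := by exact_mod_cast hd1
  have hd1' : (1 : ℝ) ≤ d := by exact_mod_cast hd1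
  have hm : 0 < min ε 1 := lt_min hε one_pos
  have he0 : 0 < e := by rw [he]; positivity
  have hed : 2 * (e * d) ≤ ε := by
    rw [he]
    have : 2 * (min ε 1 / (2 * d) * d) = min ε 1 := by field_simp
    rw [this]
    exact min_le_left _ _
  have he1 : e ≤ 1 := by
    rw [he, div_le_one (by positivity)]
    have := min_le_right ε 1
    linarith
  obtain ⟨p₁, hp₁⟩ := large 2 (e / 2) (by positivity)
  obtain ⟨p₂, hp₂⟩ := large C (ε / 2) (by positivity)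
  refine ⟨e / 2, by positivity, 2 * C, by linarith, p₁ + p₂, ?_⟩
  intro p _ hp A P hP hPK
  have hp1 := hp₁ p (by omega)
  have hp2 := hp₂ p (by omega)
  have hpR : (1 : ℝ) ≤ p := by exact_mod_cast (Fact.out : p.Prime).one_lt.le
  have hp0 : (0 : ℝ) < p := by linarith
  have hPc : (0 : ℝ) < P.card := lt_of_lt_of_le (by positivity) hP
  have hPne : P.Nonempty := by rw [← card_pos]; exact_mod_cast hPc
  have hhalf : (p : ℝ) ^ e = (p : ℝ) ^ (e / 2) * (p : ℝ) ^ (e / 2) := by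
    rw [← Real.rpow_add hp0]; congr 1; ring
  set L : ℕ := ⌊(p : ℝ) ^ e⌋₊ with hL
  have hLle : (L : ℝ) ≤ (p : ℝ) ^ e := Nat.floor_le (by positivity)
  have hL2 : 2 ≤ L := by
    refine Nat.le_floor ?_
    push_cast
    rw [hhalf]
    nlinarith
  have hLge : (p : ℝ) ^ (e / 2) ≤ L := by
    have h1 := Nat.lt_floor_add_one ((p : ℝ) ^ e)
    rw [← hL] at h1
    have h2 : 2 * (p : ℝ) ^ (e / 2) ≤ (p : ℝ) ^ e := by
      rw [hhalf]
      exact mul_le_mul_of_nonneg_right hp1 (by positivity)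
    linarith
  have hLp : L ≤ p := by
    have h1 : (L : ℝ) ≤ p := by
      refine hLle.trans ?_
      calc (p : ℝ) ^ e ≤ (p : ℝ) ^ (1 : ℝ) := Real.rpow_le_rpow_of_exponent_le hpR he1
        _ = p := Real.rpow_one _
    exact_mod_cast h1
  have hsize : C * (L : ℝ) ^ d ≤ P.card := by
    refine le_trans ?_ hP
    calc C * (L : ℝ) ^ d ≤ (p : ℝ) ^ (ε / 2) * ((p : ℝ) ^ e) ^ d := by
          refine mul_le_mul hp2 (pow_le_pow_left₀ (Nat.cast_nonneg _) hLle d) (by positivity)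
            (by positivity)
      _ = (p : ℝ) ^ (ε / 2 + e * d) := by
          rw [← Real.rpow_natCast, ← Real.rpow_mul hp0.le, ← Real.rpow_add hp0]
      _ ≤ (p : ℝ) ^ ε := Real.rpow_le_rpow_of_exponent_le hpR (by linarith)
  obtain ⟨v, T, hv, hT, hPT⟩ := hcov p P hPne (hPK.trans
    (mul_le_mul_of_nonneg_right (le_max_left _ _) hPc.le)) L hL2 hLp hsize
  refine ⟨v, L, hv, hLge, ?_⟩
  have hL0 : (0 : ℝ) < L := by
    have : 0 < L := by omega
    exact_mod_cast this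
  set Q : Finset (ZMod p) := (range L).image fun i : ℕ => (i : ZMod p) * v with hQ
  -- a dense piece
  have hpiece : ∃ t ∈ T, (L : ℝ) ≤ C * ((P.filter fun a => ∃ i : ℕ, i < L ∧
      a = t + (i : ZMod p) * v).card : ℝ) := by
    by_contra hcon
    push Not at hcon
    have h1 : P ⊆ T.biUnion fun t => P.filter fun a => ∃ i : ℕ, i < L ∧
        a = t + (i : ZMod p) * v := by
      intro a ha
      obtain ⟨t, ht, i, hi, e⟩ := hPT a ha
      exact mem_biUnion.2 ⟨t, ht, mem_filter.2 ⟨ha, i, hi, e⟩⟩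
    have h2 : (P.card : ℝ) ≤ ∑ t ∈ T, ((P.filter fun a => ∃ i : ℕ, i < L ∧
        a = t + (i : ZMod p) * v).card : ℝ) := by
      exact_mod_cast (card_le_card h1).trans card_biUnion_le
    have hTne : T.Nonempty := by
      obtain ⟨a, ha⟩ := hPne
      obtain ⟨t, ht, -⟩ := hPT a ha
      exact ⟨t, ht⟩
    have h3 : C * (P.card : ℝ) < (T.card : ℝ) * L := by
      calc C * (P.card : ℝ) ≤ C * ∑ t ∈ T, ((P.filter fun a => ∃ i : ℕ, i < L ∧
            a = t + (i : ZMod p) * v).card : ℝ) := mul_le_mul_of_nonneg_left h2 (by linarith)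
        _ = ∑ t ∈ T, C * ((P.filter fun a => ∃ i : ℕ, i < L ∧
            a = t + (i : ZMod p) * v).card : ℝ) := by rw [mul_sum]
        _ < ∑ _t ∈ T, (L : ℝ) := sum_lt_sum_of_nonempty hTne hcon
        _ = (T.card : ℝ) * L := by rw [sum_const, nsmul_eq_mul]
    linarith
  obtain ⟨t, ht, htL⟩ := hpiece
  set P₁ := P.filter fun a => ∃ i : ℕ, i < L ∧ a = t + (i : ZMod p) * v with hP₁
  have hP₁0 : (0 : ℝ) < P₁.card := by
    by_contra hcon
    have h1 : (P₁.card : ℝ) = 0 := le_antisymm (not_lt.1 hcon) (Nat.cast_nonneg _)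
    rw [h1, mul_zero] at htL
    linarith
  have h1 := Finset.ruzsa_triangle_inequality_add_add_add A P₁ Q
  have h2 : (P₁ + Q).card ≤ 2 * L := by
    have h3 : P₁ + Q ⊆ (range (2 * L)).image fun i : ℕ => t + (i : ZMod p) * v := by
      intro x hx
      obtain ⟨a, ha, b, hb, rfl⟩ := Finset.mem_add.1 hx
      obtain ⟨i, hi, rfl⟩ := (mem_filter.1 ha).2
      obtain ⟨j, hj, rfl⟩ := mem_image.1 hb
      refine mem_image.2 ⟨i + j, mem_range.2 ?_, ?_⟩
      · have := mem_range.1 hj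
        omega
      · push_cast
        ring
    calc (P₁ + Q).card ≤ ((range (2 * L)).image fun i : ℕ => t + (i : ZMod p) * v).card :=
          card_le_card h3
      _ ≤ (range (2 * L)).card := card_image_le
      _ = 2 * L := card_range _
  have h3 : (A + P₁).card ≤ (A + P).card := card_le_card (add_subset_add_left (filter_subset _ _))
  have h4 : ((A + Q).card : ℝ) * P₁.card ≤ (A + P).card * (2 * L) := by
    have h5 : (A + Q).card * P₁.card ≤ (A + P).card * (2 * L) :=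
      h1.trans (Nat.mul_le_mul h3 h2)
    exact_mod_cast h5
  have h5 : ((A + Q).card : ℝ) * P₁.card ≤ (2 * C * (A + P).card) * P₁.card := by
    calc _ ≤ _ := h4
      _ = 2 * (A + P).card * L := by ring
      _ ≤ 2 * (A + P).card * (C * P₁.card) := mul_le_mul_of_nonneg_left htL (by positivity)
      _ = _ := by ring
  exact le_of_mul_le_mul_right h5 hP₁0

/-- bilinear form over two sets nearly invariant under sets of bounded doubling -/
theorem doubling_diff (ε K : ℝ) (hε : 0 < ε) : ∃ κ : ℝ, 0 < κ ∧ ∀ ϑ : ℝ, 0 < ϑ →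
    ∃ τ : ℝ, 0 < τ ∧ ∃ p₀ : ℕ, ∀ (p : ℕ) [Fact p.Prime], p₀ ≤ p →
    ∀ χ : DirichletCharacter ℂ p, χ ≠ 1 →
    ∀ A B P Q : Finset (ZMod p), (p : ℝ) ^ ε ≤ P.card → (p : ℝ) ^ ε ≤ Q.card →
      ((P + P).card : ℝ) ≤ K * P.card → ((Q + Q).card : ℝ) ≤ K * Q.card →
      ((A + P).card : ℝ) ≤ (p : ℝ) ^ τ * A.card → ((B + Q).card : ℝ) ≤ (p : ℝ) ^ τ * B.card →
      (∀ X : Finset (ZMod p), (X.card : ℝ) ≤ (p : ℝ) ^ (1 / 2 - κ) →
        (((A ×ˢ B).filter fun t => t.1 - t.2 ∈ X).card : ℝ) ≤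
          (p : ℝ) ^ (-ϑ) * (A.card * B.card)) →
      ∀ f g : ZMod p → ℂ, ‖∑ a ∈ A, ∑ b ∈ B, f a * g b * χ (a - b)‖ ≤ (p : ℝ) ^ (-τ) *
        ((Real.sqrt A.card * Real.sqrt B.card) *
          (Real.sqrt (∑ a ∈ A, ‖f a‖ ^ 2) * Real.sqrt (∑ b ∈ B, ‖g b‖ ^ 2))) := by
  obtain ⟨ε', hε', C, hC, p₁, hap⟩ := ap_inv ε K hε
  obtain ⟨κ, hκ, h⟩ := thick_diff ε' hε'
  refine ⟨κ, hκ, fun ϑ hϑ => ?_⟩
  obtain ⟨τ, hτ, p₂, h⟩ := h ϑ hϑ
  obtain ⟨p₃, hp₃⟩ := large C (τ / 2) (by positivity)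
  refine ⟨τ / 2, by positivity, p₁ + p₂ + p₃, ?_⟩
  intro p _ hp χ hχ A B P Q hP hQ hPK hQK hA hB hAB f g
  have hp3 := hp₃ p (by omega)
  have hpR : (1 : ℝ) ≤ p := by exact_mod_cast (Fact.out : p.Prime).one_lt.le
  have hp0 : (0 : ℝ) < p := by linarith
  obtain ⟨z, N, hz, hN, hAN⟩ := hap p (by omega) A P hP hPK
  obtain ⟨z', N', hz', hN', hBN⟩ := hap p (by omega) B Q hQ hQK
  have hinv : ∀ (a b c : ℝ), 0 ≤ b → 0 ≤ c → a ≤ C * b → b ≤ (p : ℝ) ^ (τ / 2) * c →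
      a ≤ (p : ℝ) ^ τ * c := by
    intro a b c hb hc h1 h2
    have e : (p : ℝ) ^ τ = (p : ℝ) ^ (τ / 2) * (p : ℝ) ^ (τ / 2) := by
      rw [← Real.rpow_add hp0]; congr 1; ring
    calc a ≤ C * b := h1
      _ ≤ (p : ℝ) ^ (τ / 2) * ((p : ℝ) ^ (τ / 2) * c) :=
          mul_le_mul hp3 h2 hb (by positivity)
      _ = _ := by rw [e]; ring
  have h1 := h p (by omega) χ hχ A B z z' N N' hz hz' hN hN'
    (hinv _ _ _ (Nat.cast_nonneg _) (Nat.cast_nonneg _) hAN hA)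
    (hinv _ _ _ (Nat.cast_nonneg _) (Nat.cast_nonneg _) hBN hB) hAB f g
  refine h1.trans (mul_le_mul_of_nonneg_right ?_ (by positivity))
  exact Real.rpow_le_rpow_of_exponent_le hpR (by linarith)

/-- Q1 for sets nearly invariant under a set of bounded doubling, of critical additive energy, for
their dense subsets and the Moebius images -/
theorem doubling_q1 (ε K : ℝ) (hε : 0 < ε) : ∃ τ : ℝ, 0 < τ ∧ ∃ p₀ : ℕ,
    ∀ (p : ℕ) [Fact p.Prime], p₀ ≤ p → ∀ χ : DirichletCharacter ℂ p, χ ≠ 1 →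
    ∀ A P : Finset (ZMod p), A.Nonempty → (p : ℝ) ^ ε ≤ P.card →
      ((P + P).card : ℝ) ≤ K * P.card → ((A + P).card : ℝ) ≤ (p : ℝ) ^ τ * A.card →
      (Finset.addEnergy A A : ℝ) ≤ (p : ℝ) ^ (-(1 / 2) + τ) * (A.card : ℝ) ^ 4 →
      ∀ A' : Finset (ZMod p), A' ⊆ A → (A.card : ℝ) ≤ (p : ℝ) ^ τ * A'.card →
        ∀ α β γ δ : ZMod p, α * δ - β * γ ≠ 0 → (∀ a ∈ A', γ * a + δ ≠ 0) →
          ∀ C : Finset (ZMod p), C = (A'.image fun a => (α * a + β) * (γ * a + δ)⁻¹) →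
            ‖∑ x ∈ C, ∑ y ∈ C, χ (x - y)‖ < (C.card : ℝ) ^ (2 - τ) := by
  obtain ⟨ε', hε', C, hC, p₁, hap⟩ := ap_inv ε K hε
  obtain ⟨τ, hτ, p₂, h⟩ := thick_q1 ε' hε'
  obtain ⟨p₃, hp₃⟩ := large C (τ / 2) (by positivity)
  refine ⟨τ / 2, by positivity, p₁ + p₂ + p₃, ?_⟩
  intro p _ hp χ hχ A P hne hP hPK hA hE A' hA' hAA' α β γ δ hdet hpole D hD
  have hp3 := hp₃ p (by omega)
  have hpR : (1 : ℝ) ≤ p := by exact_mod_cast (Fact.out : p.Prime).one_lt.le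
  have hp0 : (0 : ℝ) < p := by linarith
  have hmono : (p : ℝ) ^ (τ / 2) ≤ (p : ℝ) ^ τ :=
    Real.rpow_le_rpow_of_exponent_le hpR (by linarith)
  obtain ⟨z, N, hz, hN, hAN⟩ := hap p (by omega) A P hP hPK
  have hinv : ((A + (range N).image fun i : ℕ => (i : ZMod p) * z).card : ℝ) ≤
      (p : ℝ) ^ τ * A.card := by
    have e : (p : ℝ) ^ τ = (p : ℝ) ^ (τ / 2) * (p : ℝ) ^ (τ / 2) := by
      rw [← Real.rpow_add hp0]; congr 1; ring
    calc _ ≤ C * ((A + P).card : ℝ) := hAN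
      _ ≤ (p : ℝ) ^ (τ / 2) * ((p : ℝ) ^ (τ / 2) * A.card) :=
          mul_le_mul hp3 hA (Nat.cast_nonneg _) (by positivity)
      _ = _ := by rw [e]; ring
  have hE' : (Finset.addEnergy A A : ℝ) ≤ (p : ℝ) ^ (-(1 / 2) + τ) * (A.card : ℝ) ^ 4 := by
    refine hE.trans (mul_le_mul_of_nonneg_right ?_ (by positivity))
    exact Real.rpow_le_rpow_of_exponent_le hpR (by linarith)
  have h1 := h p (by omega) χ hχ A z N hne hz hN hinv hE' A' hA'
    (hAA'.trans (mul_le_mul_of_nonneg_right hmono (Nat.cast_nonneg _))) α β γ δ hdet hpole D hD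
  rcases D.eq_empty_or_nonempty with h2 | h2
  · rw [h2] at h1 ⊢
    simp only [sum_empty, norm_zero, card_empty, Nat.cast_zero] at h1 ⊢
    by_cases h3 : (2 : ℝ) - τ = 0
    · exfalso
      -- `D` is not empty since `A` is not
      have hA'0 : A' = ∅ := by
        have : (A'.image fun a => (α * a + β) * (γ * a + δ)⁻¹) = ∅ := by rw [← hD, h2]
        exact image_eq_empty.1 this
      rw [hA'0, card_empty, Nat.cast_zero, mul_zero] at hAA'
      have : (0 : ℝ) < A.card := by exact_mod_cast hne.card_pos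
      linarith
    · rw [Real.zero_rpow h3] at h1
      exact absurd h1 (lt_irrefl _)
  · have h3 : (1 : ℝ) ≤ D.card := by exact_mod_cast h2.card_pos
    refine lt_of_lt_of_le h1 ?_
    exact Real.rpow_le_rpow_of_exponent_le h3 (by linarith)

end Pool.Agent.Y881.DS
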