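import Pool.Agent.Y881.SP.Count

set_option autoImplicit false
set_option linter.unusedSectionVars false

/-! # Few points are sent into a small set by many affine maps -/

open Finset

namespace Pool.Agent.Y881.DS

open Pool.Agent.Y881.SP

open Classical in
/-- at most `p^(-c) M` points `s` are sent into the set `V`, `|V| ≤ M`, by `(a + s) / t` for more
than `p^(-c) |A| |T|` of the pairs `(a, t)` -/
theorem rich_few (ε : ℝ) (hε : 0 < ε) : ∃ c : ℝ, 0 < c ∧ ∃ p₀ : ℕ, ∀ (p : ℕ) [Fact p.Prime],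
    p₀ ≤ p → ∀ A T V : Finset (ZMod p), (0 : ZMod p) ∉ T → (p : ℝ) ^ ε ≤ A.card →
      (p : ℝ) ^ ε ≤ T.card → ∀ M : ℝ, (V.card : ℝ) ≤ M → M + 1 ≤ (p : ℝ) ^ (1 - ε) →
      (((univ : Finset (ZMod p)).filter fun s => (p : ℝ) ^ (-c) * (A.card * T.card) <
        (((A ×ˢ T).filter fun r => (r.1 + s) / r.2 ∈ V).card : ℝ)).card : ℝ) ≤
        (p : ℝ) ^ (-c) * M := by
  obtain ⟨c, hc, p₀, h⟩ := count ε hε
  refine ⟨c, hc, p₀, fun p _ hp A T V hT0 hA hT M hV hM => ?_⟩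
  have hp1 : (1 : ℝ) ≤ p := by exact_mod_cast (Fact.out : p.Prime).one_lt.le
  have hp0 : (0 : ℝ) < p := by linarith
  have hAc : (0 : ℝ) < A.card := lt_of_lt_of_le (by positivity) hA
  have hTc : (0 : ℝ) < T.card := lt_of_lt_of_le (by positivity) hT
  by_contra hcon
  have hcon := not_le.1 hcon
  have hM0 : 0 ≤ M := le_trans (Nat.cast_nonneg _) hV
  have hpc : (p : ℝ) ^ (-c) ≤ 1 := Real.rpow_le_one_of_one_le_of_nonpos hp1 (by linarith)
  have hpc0 : 0 < (p : ℝ) ^ (-c) := by positivity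
  set W := (univ : Finset (ZMod p)).filter fun s => (p : ℝ) ^ (-c) * (A.card * T.card) <
    (((A ×ˢ T).filter fun r => (r.1 + s) / r.2 ∈ V).card : ℝ) with hW
  have hMpos : 0 < M := by
    have hne : W.Nonempty := by
      rw [← card_pos]
      have : (0 : ℝ) < W.card := lt_of_le_of_lt (by positivity) hcon
      exact_mod_cast this
    obtain ⟨s, hs⟩ := hne
    have h1 := (mem_filter.1 hs).2
    have h2 : (0 : ℝ) < (((A ×ˢ T).filter fun r => (r.1 + s) / r.2 ∈ V).card : ℝ) :=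
      lt_of_le_of_lt (by positivity) h1
    have h3 : ((A ×ˢ T).filter fun r => (r.1 + s) / r.2 ∈ V).Nonempty := by
      rw [← card_pos]; exact_mod_cast h2
    obtain ⟨r, hr⟩ := h3
    have h4 : 0 < V.card := card_pos.2 ⟨_, (mem_filter.1 hr).2⟩
    have h5 : (0 : ℝ) < V.card := by exact_mod_cast h4
    linarith
  have hceil : ⌈(p : ℝ) ^ (-c) * M⌉₊ ≤ W.card := Nat.ceil_le.2 hcon.le
  obtain ⟨S, hSW, hS⟩ := exists_subset_card_eq hceil
  have hS1 : (p : ℝ) ^ (-c) * M ≤ S.card := by rw [hS]; exact Nat.le_ceil _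
  have hS0 : (0 : ℝ) < S.card := lt_of_lt_of_le (by positivity) hS1
  have hS2 : (S.card : ℝ) ≤ (p : ℝ) ^ (1 - ε) := by
    rw [hS]
    have h1 := Nat.ceil_lt_add_one (show 0 ≤ (p : ℝ) ^ (-c) * M by positivity)
    have h2 : (p : ℝ) ^ (-c) * M ≤ 1 * M := mul_le_mul_of_nonneg_right hpc hM0
    linarith
  have hV2 : (V.card : ℝ) ≤ (p : ℝ) ^ c * S.card := by
    have h1 : (p : ℝ) ^ c * ((p : ℝ) ^ (-c) * M) ≤ (p : ℝ) ^ c * S.card :=
      mul_le_mul_of_nonneg_left hS1 (by positivity)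
    have h2 : (p : ℝ) ^ c * ((p : ℝ) ^ (-c) * M) = M := by
      rw [← mul_assoc, ← Real.rpow_add hp0]
      simp
    linarith
  have h1 := h p hp A T S V hT0 hA hT hS2 hV2
  have h2 : (S.card : ℝ) * ((p : ℝ) ^ (-c) * (A.card * T.card)) <
      ∑ s ∈ S, (((A ×ˢ T).filter fun r => (r.1 + s) / r.2 ∈ V).card : ℝ) := by
    rw [← nsmul_eq_mul, ← sum_const]
    have hSne : S.Nonempty := by
      rw [← card_pos]; exact_mod_cast hS0
    exact sum_lt_sum_of_nonempty hSne fun s hs => (mem_filter.1 (hSW hs)).2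
  have h3 : (p : ℝ) ^ (-c) * (A.card * S.card * T.card) =
      (S.card : ℝ) * ((p : ℝ) ^ (-c) * (A.card * T.card)) := by ring
  rw [h3] at h1
  linarith

end Pool.Agent.Y881.DS
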