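import Pool.Agent.Y881.SP.CountGen
import Pool.Agent.Y881.PG.Four

set_option autoImplicit false
set_option linter.unusedSectionVars false

/-! # Projections of planar sets with long rows -/

open Finset

namespace Pool.Agent.Y881.DS

open Pool.Agent.Y881.SP Pool.Agent.Y881.PG

section
variable {p : ℕ} [Fact p.Prime]

open Classical in
/-- the row of height `y` -/
noncomputable def row (Q : Finset (ZMod p × ZMod p)) (y : ZMod p) : Finset (ZMod p) :=
  (Q.filter fun b => b.2 = y).image Prod.fst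

open Classical in
theorem row_card (Q : Finset (ZMod p × ZMod p)) (y : ZMod p) :
    (row Q y).card = (Q.filter fun b => b.2 = y).card := by
  unfold row
  refine card_image_of_injOn ?_
  intro a ha b hb h
  have h1 := (mem_filter.1 (mem_coe.1 ha)).2
  have h2 := (mem_filter.1 (mem_coe.1 hb)).2
  exact Prod.ext h (h1.trans h2.symm)

open Classical in
theorem row_sum {M : Type*} [AddCommMonoid M] (Q : Finset (ZMod p × ZMod p)) (y : ZMod p)
    (F : ZMod p → M) : ∑ x ∈ row Q y, F x = ∑ b ∈ Q.filter (fun b => b.2 = y), F b.1 := by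
  unfold row
  refine sum_image ?_
  intro a ha b hb h
  have h1 := (mem_filter.1 (mem_coe.1 ha)).2
  have h2 := (mem_filter.1 (mem_coe.1 hb)).2
  exact Prod.ext h (h1.trans h2.symm)

open Classical in
/-- averaging over the rows -/
theorem row_avg (Q : Finset (ZMod p × ZMod p)) (y : ZMod p) (F : ZMod p → ZMod p → ℝ) :
    ∑ b ∈ Q.filter (fun b => b.2 ≠ y), (∑ x ∈ row Q b.2, F b.2 x) / (row Q b.2).card =
      ∑ b ∈ Q.filter (fun b => b.2 ≠ y), F b.2 b.1 := by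
  have h1 : ∀ b ∈ Q.filter (fun b => b.2 ≠ y), (∑ x ∈ row Q b.2, F b.2 x) / (row Q b.2).card =
      ∑ b' ∈ Q.filter (fun b => b.2 ≠ y), if b'.2 = b.2 then F b'.2 b'.1 / (row Q b'.2).card
        else 0 := by
    intro b hb
    have hb2 := (mem_filter.1 hb).2
    rw [row_sum, ← sum_filter, filter_filter, sum_div]
    have e : (Q.filter fun a => a.2 ≠ y ∧ a.2 = b.2) = Q.filter fun a => a.2 = b.2 := by
      refine filter_congr fun a _ => ?_
      constructor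
      · exact fun h => h.2
      · exact fun h => ⟨by rw [h]; exact hb2, h⟩
    rw [e]
    refine sum_congr rfl fun a ha => ?_
    rw [(mem_filter.1 ha).2]
  rw [sum_congr rfl h1, sum_comm]
  refine sum_congr rfl fun b hb => ?_
  have hbQ := (mem_filter.1 hb).1
  have hb2 := (mem_filter.1 hb).2
  rw [← sum_filter, filter_filter, sum_const, nsmul_eq_mul]
  have e : (Q.filter fun a => a.2 ≠ y ∧ b.2 = a.2) = Q.filter fun a => a.2 = b.2 := by
    refine filter_congr fun a _ => ?_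
    constructor
    · exact fun h => h.2.symm
    · exact fun h => ⟨by rw [h]; exact hb2, h.symm⟩
  rw [e, row_card]
  have hc : ((Q.filter fun a => a.2 = b.2).card : ℝ) ≠ 0 := by
    have : 0 < (Q.filter fun a => a.2 = b.2).card :=
      card_pos.2 ⟨b, mem_filter.2 ⟨hbQ, rfl⟩⟩
    exact_mod_cast this.ne'
  field_simp

end

open Classical in
/-- the count for the rows -/
theorem row_count (ε : ℝ) (hε : 0 < ε) : ∃ c : ℝ, 0 < c ∧ ∃ p₀ : ℕ, ∀ (p : ℕ) [Fact p.Prime],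
    p₀ ≤ p → ∀ (Q : Finset (ZMod p × ZMod p)) (y : ZMod p) (T V : Finset (ZMod p)),
      (∀ b ∈ Q, (p : ℝ) ^ ε ≤ ((Q.filter fun b' => b'.2 = b.2).card : ℝ)) →
      (∀ z, ((Q.filter fun b' => b'.2 = z).card : ℝ) ≤ (p : ℝ) ^ (-ε) * Q.card) →
      (p : ℝ) ^ (1 / 2 - c) ≤ T.card → (T.card : ℝ) ≤ (p : ℝ) ^ (1 / 2 + c) →
      (V.card : ℝ) ≤ (p : ℝ) ^ (1 / 2 + c) →
      ∑ b ∈ Q, ((T.filter fun t => t * (y - b.2) - b.1 ∈ V).card : ℝ) ≤
        (p : ℝ) ^ (-c) * (T.card * Q.card) := by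
  obtain ⟨e, he⟩ : ∃ e : ℝ, e = min (ε / 2) (1 / 4) := ⟨_, rfl⟩
  have he0 : 0 < e := by rw [he]; positivity
  have he1 : e ≤ ε / 2 := by rw [he]; exact min_le_left _ _
  have he2 : e ≤ 1 / 4 := by rw [he]; exact min_le_right _ _
  obtain ⟨c₁, hc₁, p₁, hcount⟩ := count_gen e he0
  obtain ⟨c, hc⟩ : ∃ c : ℝ, c = min (min (c₁ / 4) (ε / 2)) (1 / 16) := ⟨_, rfl⟩
  have hc0 : 0 < c := by rw [hc]; positivity
  have hc1 : 4 * c ≤ c₁ := by
    have : c ≤ c₁ / 4 := by rw [hc]; exact (min_le_left _ _).trans (min_le_left _ _)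
    linarith
  have hc2 : 2 * c ≤ ε := by
    have : c ≤ ε / 2 := by rw [hc]; exact (min_le_left _ _).trans (min_le_right _ _)
    linarith
  have hc3 : c ≤ 1 / 16 := by rw [hc]; exact min_le_right _ _
  obtain ⟨p₂, hp₂2, hp₂⟩ := Pool.Agent.H435R3.Paley.exists_large 4 c hc0
  refine ⟨c, hc0, p₁ + p₂, fun p _ hp Q y T V hrow hlaw hT1 hT2 hV => ?_⟩
  have hp2 : (2 : ℝ) ≤ p := by exact_mod_cast (Fact.out : p.Prime).two_le
  have hp0 : (0 : ℝ) < p := by linarith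
  have hp1 : (1 : ℝ) ≤ p := by linarith
  have hmono : ∀ x y : ℝ, x ≤ y → (p : ℝ) ^ x ≤ (p : ℝ) ^ y := fun x y h =>
    Real.rpow_le_rpow_of_exponent_le hp1 h
  have h4 : (4 : ℝ) ≤ (p : ℝ) ^ c := hp₂ p (by omega)
  have hQ0 : (0 : ℝ) ≤ Q.card := Nat.cast_nonneg _
  have hT0 : (0 : ℝ) < T.card := lt_of_lt_of_le (by positivity) hT1
  obtain ⟨I, hI⟩ : ∃ I, I = Q.filter fun b => b.2 ≠ y := ⟨_, rfl⟩
  have hsplit : ∑ b ∈ Q, ((T.filter fun t => t * (y - b.2) - b.1 ∈ V).card : ℝ) ≤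
      ∑ b ∈ I, ((T.filter fun t => t * (y - b.2) - b.1 ∈ V).card : ℝ) +
        (p : ℝ) ^ (-ε) * Q.card * T.card := by
    rw [← sum_filter_add_sum_filter_not Q (fun b => b.2 ≠ y), ← hI]
    refine add_le_add le_rfl ?_
    have h5 : (Q.filter fun b => ¬ b.2 ≠ y) = Q.filter fun b => b.2 = y :=
      filter_congr fun b _ => not_not
    rw [h5]
    calc ∑ b ∈ Q.filter (fun b => b.2 = y), ((T.filter fun t => t * (y - b.2) - b.1 ∈ V).card : ℝ)
        ≤ (Q.filter fun b => b.2 = y).card • (T.card : ℝ) :=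
          sum_le_card_nsmul _ _ _ fun b _ => by exact_mod_cast card_filter_le _ _
      _ ≤ _ := by
          rw [nsmul_eq_mul]
          exact mul_le_mul_of_nonneg_right (hlaw y) hT0.le
  have hIc : (Q.card : ℝ) ≤ 2 * I.card := by
    have h5 : (Q.card : ℝ) = I.card + (Q.filter fun b => b.2 = y).card := by
      have h6 := card_filter_add_card_filter_not (s := Q) (fun b => b.2 ≠ y)
      have h7 : (Q.filter fun b => ¬ b.2 ≠ y) = Q.filter fun b => b.2 = y :=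
        filter_congr fun b _ => not_not
      rw [h7, ← hI] at h6
      exact_mod_cast h6.symm
    have h6 := hlaw y
    have h7 : (p : ℝ) ^ (-ε) ≤ 1 / 4 := by
      calc (p : ℝ) ^ (-ε) ≤ (p : ℝ) ^ (-c) := hmono _ _ (by linarith)
        _ = ((p : ℝ) ^ c)⁻¹ := Real.rpow_neg hp0.le _
        _ ≤ 4⁻¹ := inv_anti₀ (by norm_num) h4
        _ = 1 / 4 := by norm_num
    have h8 : (p : ℝ) ^ (-ε) * Q.card ≤ 1 / 4 * Q.card := mul_le_mul_of_nonneg_right h7 hQ0
    linarith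
  obtain ⟨S, hS⟩ : ∃ S, S = V ∪ T := ⟨_, rfl⟩
  have hScard : (S.card : ℝ) ≤ 2 * (p : ℝ) ^ (1 / 2 + c) := by
    have h5 : (S.card : ℝ) ≤ V.card + T.card := by rw [hS]; exact_mod_cast card_union_le _ _
    linarith
  have hmain := hcount p (by omega) I (fun b : ZMod p × ZMod p => y - b.2)
    (fun b : ZMod p × ZMod p => row Q b.2) S T
    (fun b hb => by
      rw [hI] at hb
      exact sub_ne_zero.2 (mem_filter.1 hb).2.symm)
    (fun x => by
      have h5 : ((I.filter fun i => y - i.2 = x).card : ℝ) ≤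
          ((Q.filter fun b' => b'.2 = y - x).card : ℝ) := by
        refine Nat.cast_le.2 (card_le_card fun b hb => ?_)
        obtain ⟨hb1, hb2⟩ := mem_filter.1 hb
        rw [hI] at hb1
        refine mem_filter.2 ⟨(mem_filter.1 hb1).1, ?_⟩
        rw [← hb2]
        ring
      have h6 : (p : ℝ) ^ (-ε) * 2 ≤ (p : ℝ) ^ (-e) := by
        calc (p : ℝ) ^ (-ε) * 2 ≤ (p : ℝ) ^ (-ε) * (p : ℝ) ^ c :=
              mul_le_mul_of_nonneg_left (by linarith) (by positivity)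
          _ = (p : ℝ) ^ (-ε + c) := (Real.rpow_add hp0 _ _).symm
          _ ≤ _ := hmono _ _ (by linarith)
      calc ((I.filter fun i => y - i.2 = x).card : ℝ) ≤ (p : ℝ) ^ (-ε) * Q.card :=
            h5.trans (hlaw _)
        _ ≤ (p : ℝ) ^ (-ε) * (2 * I.card) := mul_le_mul_of_nonneg_left hIc (by positivity)
        _ = (p : ℝ) ^ (-ε) * 2 * I.card := by ring
        _ ≤ _ := mul_le_mul_of_nonneg_right h6 (Nat.cast_nonneg _))
    (fun b hb => by
      rw [hI] at hb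
      rw [row_card]
      exact (hmono _ _ (by linarith)).trans (hrow b (mem_filter.1 hb).1))
    (by
      refine hScard.trans ?_
      calc 2 * (p : ℝ) ^ (1 / 2 + c) ≤ (p : ℝ) ^ c * (p : ℝ) ^ (1 / 2 + c) :=
            mul_le_mul_of_nonneg_right (by linarith) (by positivity)
        _ = (p : ℝ) ^ (c + (1 / 2 + c)) := (Real.rpow_add hp0 _ _).symm
        _ ≤ _ := hmono _ _ (by linarith))
    (by
      have h5 : (T.card : ℝ) ≤ S.card := by
        rw [hS]; exact_mod_cast card_le_card subset_union_right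
      have h6 : (1 : ℝ) ≤ (p : ℝ) ^ c₁ := Real.one_le_rpow hp1 hc₁.le
      calc (T.card : ℝ) ≤ 1 * S.card := by rw [one_mul]; exact h5
        _ ≤ _ := mul_le_mul_of_nonneg_right h6 (Nat.cast_nonneg _))
  -- rewrite the count
  have h5 : ∑ b ∈ I, ((T.filter fun t => t * (y - b.2) - b.1 ∈ V).card : ℝ) ≤
      ∑ b ∈ I, ∑ s ∈ S, prop (row Q b.2) T (y - b.2) s := by
    have e1 : ∀ b : ZMod p × ZMod p, ∑ s ∈ S, prop (row Q b.2) T (y - b.2) s =
        (∑ x ∈ row Q b.2, ((S.filter fun s => (x + s) / (y - b.2) ∈ T).card : ℝ)) /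
          (row Q b.2).card := by
      intro b
      unfold prop
      rw [← sum_div]
      congr 1
      simp only [card_filter, Nat.cast_sum]
      rw [sum_comm]
    rw [sum_congr rfl fun b _ => e1 b, hI,
      row_avg Q y (fun z x => ((S.filter fun s => (x + s) / (y - z) ∈ T).card : ℝ))]
    refine sum_le_sum fun b hb => ?_
    have hb2 : y - b.2 ≠ 0 := sub_ne_zero.2 (mem_filter.1 hb).2.symm
    refine Nat.cast_le.2 (card_le_card_of_injOn (fun t => t * (y - b.2) - b.1) ?_ ?_)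
    · intro t ht
      obtain ⟨ht1, ht2⟩ := mem_filter.1 (mem_coe.1 ht)
      refine mem_coe.2 (mem_filter.2 ⟨?_, ?_⟩)
      · rw [hS]
        exact mem_union_left _ ht2
      · have e : (b.1 + (t * (y - b.2) - b.1)) / (y - b.2) = t := by
          field_simp
          ring
        rw [e]
        exact ht1
    · intro t _ t' _ h
      have h6 : t * (y - b.2) = t' * (y - b.2) := sub_left_injective h
      exact mul_right_cancel₀ hb2 h6
  have hIQ : (I.card : ℝ) ≤ Q.card := by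
    rw [hI]; exact_mod_cast card_filter_le _ _
  have h6 : ∑ b ∈ I, ((T.filter fun t => t * (y - b.2) - b.1 ∈ V).card : ℝ) ≤
      2 * ((p : ℝ) ^ (-(2 * c)) * (T.card * Q.card)) := by
    refine h5.trans (hmain.trans ?_)
    calc (p : ℝ) ^ (-c₁) * (S.card * I.card)
        ≤ (p : ℝ) ^ (-c₁) * (2 * (p : ℝ) ^ (1 / 2 + c) * Q.card) := by gcongr
      _ = 2 * ((p : ℝ) ^ (-c₁) * (p : ℝ) ^ (1 / 2 + c) * Q.card) := by ring
      _ ≤ 2 * ((p : ℝ) ^ (-(2 * c)) * (p : ℝ) ^ (1 / 2 - c) * Q.card) := by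
          rw [← Real.rpow_add hp0, ← Real.rpow_add hp0]
          have := hmono (-c₁ + (1 / 2 + c)) (-(2 * c) + (1 / 2 - c)) (by linarith)
          gcongr
      _ ≤ 2 * ((p : ℝ) ^ (-(2 * c)) * T.card * Q.card) := by gcongr
      _ = _ := by ring
  have h7 : (p : ℝ) ^ (-ε) ≤ (p : ℝ) ^ (-(2 * c)) := hmono _ _ (by linarith)
  have h8 : 3 * (p : ℝ) ^ (-(2 * c)) ≤ (p : ℝ) ^ (-c) := by
    calc 3 * (p : ℝ) ^ (-(2 * c)) ≤ (p : ℝ) ^ c * (p : ℝ) ^ (-(2 * c)) :=
          mul_le_mul_of_nonneg_right (by linarith) (by positivity)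
      _ = (p : ℝ) ^ (-c) := by
          rw [← Real.rpow_add hp0]
          congr 1
          ring
  have hTQ : (0 : ℝ) ≤ T.card * Q.card := by positivity
  calc _ ≤ 2 * ((p : ℝ) ^ (-(2 * c)) * (T.card * Q.card)) + (p : ℝ) ^ (-ε) * Q.card * T.card :=
        hsplit.trans (add_le_add h6 le_rfl)
    _ = (2 * (p : ℝ) ^ (-(2 * c)) + (p : ℝ) ^ (-ε)) * (T.card * Q.card) := by ring
    _ ≤ (p : ℝ) ^ (-c) * (T.card * Q.card) := by
        refine mul_le_mul_of_nonneg_right ?_ hTQ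
        linarith

/-- a subset of prescribed size -/
theorem exists_sub {α : Type*} (T : Finset α) (x : ℝ) (hx : 1 ≤ x) (h : x < T.card) :
    ∃ T' ⊆ T, x ≤ T'.card ∧ (T'.card : ℝ) ≤ 2 * x := by
  have h1 : ⌈x⌉₊ ≤ T.card := Nat.ceil_le.2 h.le
  obtain ⟨T', hT', hc⟩ := exists_subset_card_eq h1
  refine ⟨T', hT', ?_, ?_⟩
  · rw [hc]
    exact Nat.le_ceil x
  · rw [hc]
    have := Nat.ceil_lt_add_one (by linarith : 0 ≤ x)
    linarith

open Classical in
/-- the sum over one row -/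
theorem row_bound {p : ℕ} [Fact p.Prime] (χ : DirichletCharacter ℂ p)
    (P Q : Finset (ZMod p × ZMod p)) (β : ZMod p × ZMod p → ℂ)
    (hβ : ∀ b, ‖β b‖ ≤ 1) (θ : ℝ) (hθ : 0 ≤ θ) (t : ZMod p) :
    ∑ b ∈ Q, ‖∑ a ∈ P, β a * χ ((a.1 + t * a.2) - (b.1 + t * b.2))‖ ≤
      θ * (P.card * Q.card) + ∑ y ∈ P.image Prod.snd, ∑ b ∈ Q,
        if θ * (row P y).card < ‖∑ x ∈ row P y, β (x, y) * χ (t * (y - b.2) - b.1 + x)‖ then
          ((row P y).card : ℝ) else 0 := by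
  have h1 : ∀ b ∈ Q, ∑ a ∈ P, β a * χ ((a.1 + t * a.2) - (b.1 + t * b.2)) =
      ∑ y ∈ P.image Prod.snd, ∑ x ∈ row P y, β (x, y) * χ (t * (y - b.2) - b.1 + x) := by
    intro b _
    rw [← sum_fiberwise_of_maps_to (s := P) (t := P.image Prod.snd) (g := Prod.snd)
      (fun a ha => mem_image_of_mem _ ha)]
    refine sum_congr rfl fun y _ => ?_
    rw [row_sum]
    refine sum_congr rfl fun a ha => ?_
    have h2 := (mem_filter.1 ha).2
    have e1 : (a.1, y) = a := by rw [← h2]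
    have e2 : (a.1 + t * a.2) - (b.1 + t * b.2) = t * (y - b.2) - b.1 + a.1 := by
      rw [h2]
      ring
    rw [e1, e2]
  have h2 : (P.card : ℝ) = ∑ y ∈ P.image Prod.snd, ((row P y).card : ℝ) := by
    have h3 := card_eq_sum_card_image Prod.snd P
    rw [h3]
    push_cast
    refine sum_congr rfl fun y _ => ?_
    rw [row_card]
  rw [h2, sum_mul, mul_sum, ← sum_add_distrib]
  have h3 : ∑ b ∈ Q, ‖∑ a ∈ P, β a * χ ((a.1 + t * a.2) - (b.1 + t * b.2))‖ ≤
      ∑ y ∈ P.image Prod.snd, ∑ b ∈ Q,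
        ‖∑ x ∈ row P y, β (x, y) * χ (t * (y - b.2) - b.1 + x)‖ := by
    rw [sum_comm]
    refine sum_le_sum fun b hb => ?_
    rw [h1 b hb]
    exact norm_sum_le _ _
  refine h3.trans (sum_le_sum fun y _ => ?_)
  have h3 : θ * (((row P y).card : ℝ) * Q.card) = ∑ b ∈ Q, θ * (row P y).card := by
    rw [sum_const, nsmul_eq_mul]
    ring
  rw [h3, ← sum_add_distrib]
  refine sum_le_sum fun b _ => ?_
  split_ifs with h
  · have h4 : ‖∑ x ∈ row P y, β (x, y) * χ (t * (y - b.2) - b.1 + x)‖ ≤ (row P y).card := by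
      refine (norm_sum_le _ _).trans ?_
      calc ∑ x ∈ row P y, ‖β (x, y) * χ (t * (y - b.2) - b.1 + x)‖ ≤ ∑ x ∈ row P y, (1 : ℝ) := by
            refine sum_le_sum fun x _ => ?_
            rw [norm_mul]
            exact mul_le_one₀ (hβ _) (norm_nonneg _) (DirichletCharacter.norm_le_one χ _)
        _ = _ := by rw [sum_const, nsmul_eq_mul, mul_one]
    have h5 : 0 ≤ θ * (row P y).card := by positivity
    linarith
  · rw [add_zero]
    exact not_lt.1 h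

open Classical in
/-- **projections of planar sets with long rows**: for every character the exceptional directions
are fewer than the square root of `p` by a power -/
theorem rows (ε : ℝ) (hε : 0 < ε) : ∃ c : ℝ, 0 < c ∧ ∃ p₀ : ℕ, ∀ (p : ℕ) [Fact p.Prime],
    p₀ ≤ p → ∀ χ : DirichletCharacter ℂ p, χ ≠ 1 → ∀ P Q : Finset (ZMod p × ZMod p),
      (∀ a ∈ P, (p : ℝ) ^ ε ≤ ((P.filter fun a' => a'.2 = a.2).card : ℝ)) →
      (∀ b ∈ Q, (p : ℝ) ^ ε ≤ ((Q.filter fun b' => b'.2 = b.2).card : ℝ)) →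
      (∀ y, ((Q.filter fun b' => b'.2 = y).card : ℝ) ≤ (p : ℝ) ^ (-ε) * Q.card) →
      ∀ β : ZMod p × ZMod p → ℂ, (∀ a, ‖β a‖ ≤ 1) →
        ({t : ZMod p | (p : ℝ) ^ (-c) * (P.card * Q.card) <
          ∑ b ∈ Q, ‖∑ a ∈ P, β a * χ ((a.1 + t * a.2) - (b.1 + t * b.2))‖}.ncard : ℝ)
          ≤ (p : ℝ) ^ (1 / 2 - c) := by
  obtain ⟨c₁, hc₁, p₁, hcount⟩ := row_count ε hε
  obtain ⟨d, hd, p₂, hLV⟩ := LV ε c₁ hε hc₁
  obtain ⟨c, hc⟩ : ∃ c : ℝ, c = min (min c₁ d) (1 / 2) / 4 := ⟨_, rfl⟩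
  have hc0 : 0 < c := by rw [hc]; positivity
  have hc1 : 4 * c ≤ c₁ := by
    rw [hc]; linarith [min_le_left (min c₁ d) (1 / 2 : ℝ), min_le_left c₁ d]
  have hc2 : 4 * c ≤ d := by
    rw [hc]; linarith [min_le_left (min c₁ d) (1 / 2 : ℝ), min_le_right c₁ d]
  have hc3 : 4 * c ≤ 1 / 2 := by
    rw [hc]; linarith [min_le_right (min c₁ d) (1 / 2 : ℝ)]
  obtain ⟨p₃, hp₃2, hp₃⟩ := Pool.Agent.H435R3.Paley.exists_large 4 c hc0
  refine ⟨c, hc0, p₁ + p₂ + p₃, fun p _ hp χ hχ P Q hP hQ hlaw β hβ => ?_⟩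
  have hp2 : (2 : ℝ) ≤ p := by exact_mod_cast (Fact.out : p.Prime).two_le
  have hp0 : (0 : ℝ) < p := by linarith
  have hp1 : (1 : ℝ) ≤ p := by linarith
  have hmono : ∀ x y : ℝ, x ≤ y → (p : ℝ) ^ x ≤ (p : ℝ) ^ y := fun x y h =>
    Real.rpow_le_rpow_of_exponent_le hp1 h
  have h4 : (4 : ℝ) ≤ (p : ℝ) ^ c := hp₃ p (by omega)
  obtain ⟨E, hE⟩ : ∃ E : Finset (ZMod p), E = univ.filter fun t : ZMod p =>
    (p : ℝ) ^ (-c) * (P.card * Q.card) <
      ∑ b ∈ Q, ‖∑ a ∈ P, β a * χ ((a.1 + t * a.2) - (b.1 + t * b.2))‖ := ⟨_, rfl⟩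
  have hset : {t : ZMod p | (p : ℝ) ^ (-c) * (P.card * Q.card) <
      ∑ b ∈ Q, ‖∑ a ∈ P, β a * χ ((a.1 + t * a.2) - (b.1 + t * b.2))‖} = ↑E := by
    ext t
    rw [hE, mem_coe, mem_filter]
    exact ⟨fun h => ⟨mem_univ _, h⟩, fun h => h.2⟩
  rw [hset, Set.ncard_coe_finset]
  by_contra hcon
  have hcon := not_le.1 hcon
  obtain ⟨T, hTE, hT1, hT2⟩ := exists_sub E ((p : ℝ) ^ (1 / 2 - c))
    (Real.one_le_rpow hp1 (by linarith)) hcon
  have hT0 : (0 : ℝ) < T.card := lt_of_lt_of_le (by positivity) hT1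
  have hTlo : (p : ℝ) ^ (1 / 2 - c₁) ≤ T.card := (hmono _ _ (by linarith)).trans hT1
  have hThi : (T.card : ℝ) ≤ (p : ℝ) ^ (1 / 2 + c₁) := by
    refine hT2.trans ?_
    calc 2 * (p : ℝ) ^ (1 / 2 - c) ≤ (p : ℝ) ^ c * (p : ℝ) ^ (1 / 2 - c) :=
          mul_le_mul_of_nonneg_right (by linarith) (by positivity)
      _ = (p : ℝ) ^ (c + (1 / 2 - c)) := (Real.rpow_add hp0 _ _).symm
      _ ≤ _ := hmono _ _ (by linarith)
  -- the set of large values of a row
  obtain ⟨V, hV⟩ : ∃ V : ZMod p → Finset (ZMod p), ∀ y, V y = univ.filter fun z : ZMod p =>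
    (p : ℝ) ^ (-d) * (row P y).card < ‖∑ x ∈ row P y, β (x, y) * χ (z + x)‖ :=
      ⟨_, fun _ => rfl⟩
  have hrows : ∀ y ∈ P.image Prod.snd, ∑ t ∈ T, ∑ b ∈ Q,
      (if (p : ℝ) ^ (-d) * (row P y).card <
        ‖∑ x ∈ row P y, β (x, y) * χ (t * (y - b.2) - b.1 + x)‖ then
          ((row P y).card : ℝ) else 0) ≤
      (p : ℝ) ^ (-(4 * c)) * (T.card * Q.card) * (row P y).card := by
    intro y hy
    obtain ⟨a, ha, rfl⟩ := mem_image.1 hy
    have hVc := hLV p (by omega) χ hχ (row P a.2) (fun x => β (x, a.2))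
      (by rw [row_card]; exact hP a ha) (fun x => hβ _)
    rw [← hV] at hVc
    have h5 := hcount p (by omega) Q a.2 T (V a.2) hQ hlaw hTlo hThi hVc
    have h6 : ∑ t ∈ T, ∑ b ∈ Q,
      (if (p : ℝ) ^ (-d) * (row P a.2).card <
        ‖∑ x ∈ row P a.2, β (x, a.2) * χ (t * (a.2 - b.2) - b.1 + x)‖ then
          ((row P a.2).card : ℝ) else 0) =
        (∑ b ∈ Q, ((T.filter fun t => t * (a.2 - b.2) - b.1 ∈ V a.2).card : ℝ)) *
          (row P a.2).card := by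
      rw [sum_comm, sum_mul]
      refine sum_congr rfl fun b _ => ?_
      rw [← sum_filter, sum_const, nsmul_eq_mul]
      congr 3
      refine filter_congr fun t _ => ?_
      rw [hV, mem_filter]
      exact ⟨fun h => ⟨mem_univ _, h⟩, fun h => h.2⟩
    rw [h6]
    refine mul_le_mul_of_nonneg_right (h5.trans ?_) (Nat.cast_nonneg _)
    exact mul_le_mul_of_nonneg_right (hmono _ _ (by linarith)) (by positivity)
  -- the total
  have hPQ : (0 : ℝ) ≤ P.card * Q.card := by positivity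
  have htot : ∑ t ∈ T, ∑ b ∈ Q, ‖∑ a ∈ P, β a * χ ((a.1 + t * a.2) - (b.1 + t * b.2))‖ ≤
      2 * (p : ℝ) ^ (-(4 * c)) * (T.card * (P.card * Q.card)) := by
    have h5 : ∀ t ∈ T, ∑ b ∈ Q, ‖∑ a ∈ P, β a * χ ((a.1 + t * a.2) - (b.1 + t * b.2))‖ ≤
        (p : ℝ) ^ (-d) * (P.card * Q.card) + ∑ y ∈ P.image Prod.snd, ∑ b ∈ Q,
        (if (p : ℝ) ^ (-d) * (row P y).card <
          ‖∑ x ∈ row P y, β (x, y) * χ (t * (y - b.2) - b.1 + x)‖ then
          ((row P y).card : ℝ) else 0) := fun t _ =>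
      row_bound χ P Q β hβ _ (by positivity) t
    refine (sum_le_sum h5).trans ?_
    rw [sum_add_distrib, sum_const, nsmul_eq_mul, sum_comm]
    have h6 := sum_le_sum hrows
    rw [← mul_sum] at h6
    have h7 : ∑ y ∈ P.image Prod.snd, ((row P y).card : ℝ) = P.card := by
      have h3 := card_eq_sum_card_image Prod.snd P
      rw [h3]
      push_cast
      refine sum_congr rfl fun y _ => ?_
      rw [row_card]
    rw [h7] at h6
    have h8 : (p : ℝ) ^ (-d) ≤ (p : ℝ) ^ (-(4 * c)) := hmono _ _ (by linarith)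
    have h9 : (T.card : ℝ) * ((p : ℝ) ^ (-d) * (P.card * Q.card)) ≤
        T.card * ((p : ℝ) ^ (-(4 * c)) * (P.card * Q.card)) :=
      mul_le_mul_of_nonneg_left (mul_le_mul_of_nonneg_right h8 hPQ) hT0.le
    calc _ ≤ T.card * ((p : ℝ) ^ (-(4 * c)) * (P.card * Q.card)) +
          (p : ℝ) ^ (-(4 * c)) * (T.card * Q.card) * P.card := add_le_add h9 h6
      _ = _ := by ring
  have hlow : T.card * ((p : ℝ) ^ (-c) * (P.card * Q.card)) ≤
      ∑ t ∈ T, ∑ b ∈ Q, ‖∑ a ∈ P, β a * χ ((a.1 + t * a.2) - (b.1 + t * b.2))‖ := by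
    rw [← nsmul_eq_mul]
    refine card_nsmul_le_sum _ _ _ fun t ht => ?_
    have h5 := hTE ht
    rw [hE, mem_filter] at h5
    exact h5.2.le
  -- positivity of the sizes
  obtain ⟨t₀, ht₀⟩ : T.Nonempty := by rw [← card_pos]; exact_mod_cast hT0
  have hpos : (0 : ℝ) < P.card * Q.card := by
    have h5 := hTE ht₀
    rw [hE, mem_filter] at h5
    rcases P.eq_empty_or_nonempty with hPe | hPe
    · exfalso
      have h6 := h5.2
      rw [hPe] at h6
      simp at h6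
    rcases Q.eq_empty_or_nonempty with hQe | hQe
    · exfalso
      have h6 := h5.2
      rw [hQe] at h6
      simp at h6
    have h7 := hPe.card_pos
    have h8 := hQe.card_pos
    positivity
  have h5 := hlow.trans htot
  have h6 : 2 * (p : ℝ) ^ (-(4 * c)) < (p : ℝ) ^ (-c) := by
    calc 2 * (p : ℝ) ^ (-(4 * c)) < (p : ℝ) ^ c * (p : ℝ) ^ (-(4 * c)) :=
          mul_lt_mul_of_pos_right (by linarith) (by positivity)
      _ = (p : ℝ) ^ (c + -(4 * c)) := (Real.rpow_add hp0 _ _).symm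
      _ ≤ _ := hmono _ _ (by linarith)
  have h7 : 2 * (p : ℝ) ^ (-(4 * c)) * (T.card * (P.card * Q.card)) <
      (p : ℝ) ^ (-c) * (T.card * (P.card * Q.card)) :=
    mul_lt_mul_of_pos_right h6 (by positivity)
  have h8 : T.card * ((p : ℝ) ^ (-c) * (P.card * Q.card)) =
      (p : ℝ) ^ (-c) * (T.card * (P.card * Q.card)) := by ring
  linarith

/-- the case of one planar set -/
theorem rows_diff (ε : ℝ) (hε : 0 < ε) : ∃ c : ℝ, 0 < c ∧ ∃ p₀ : ℕ, ∀ (p : ℕ) [Fact p.Prime],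
    p₀ ≤ p → ∀ χ : DirichletCharacter ℂ p, χ ≠ 1 → ∀ P : Finset (ZMod p × ZMod p), P.Nonempty →
      (∀ a ∈ P, (p : ℝ) ^ ε ≤ ((P.filter fun a' => a'.2 = a.2).card : ℝ)) →
      (∀ y, ((P.filter fun a' => a'.2 = y).card : ℝ) ≤ (p : ℝ) ^ (-ε) * P.card) →
        ({t : ZMod p | (P.card : ℝ) ^ (2 - c) ≤
          ‖∑ a ∈ P, ∑ b ∈ P, χ ((a.1 + t * a.2) - (b.1 + t * b.2))‖}.ncard : ℝ)
          ≤ (p : ℝ) ^ (1 / 2 - c) := by
  classical
  obtain ⟨c, hc, p₀, h⟩ := rows ε hε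
  refine ⟨min (c / 4) (1 / 4), by positivity, p₀, fun p _ hp χ hχ P hPe h1 h2 => ?_⟩
  have hm1 : min (c / 4) (1 / 4 : ℝ) ≤ c / 4 := min_le_left _ _
  have hm2 : min (c / 4) (1 / 4 : ℝ) ≤ 1 / 4 := min_le_right _ _
  have hm0 : 0 < min (c / 4) (1 / 4 : ℝ) := by positivity
  generalize min (c / 4) (1 / 4 : ℝ) = e at hm1 hm2 hm0 ⊢
  have hp1' : (1 : ℝ) < p := by exact_mod_cast (Fact.out : p.Prime).one_lt
  have hp0 : (0 : ℝ) < p := by linarith
  have h3 := h p hp χ hχ P P (fun a ha => by convert h1 a ha) (fun a ha => by convert h1 a ha)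
    (fun y => by convert h2 y) (fun _ => 1) (fun _ => by simp)
  have h4 : {t : ZMod p | (P.card : ℝ) ^ (2 - e) ≤
          ‖∑ a ∈ P, ∑ b ∈ P, χ ((a.1 + t * a.2) - (b.1 + t * b.2))‖} ⊆
      {t : ZMod p | (p : ℝ) ^ (-c) * (P.card * P.card) <
        ∑ b ∈ P, ‖∑ a ∈ P, (1 : ℂ) * χ ((a.1 + t * a.2) - (b.1 + t * b.2))‖} := by
    intro t ht
    have ht : (P.card : ℝ) ^ (2 - e) ≤
      ‖∑ a ∈ P, ∑ b ∈ P, χ ((a.1 + t * a.2) - (b.1 + t * b.2))‖ := ht
    show (p : ℝ) ^ (-c) * (P.card * P.card) <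
        ∑ b ∈ P, ‖∑ a ∈ P, (1 : ℂ) * χ ((a.1 + t * a.2) - (b.1 + t * b.2))‖
    have hPc : (0 : ℝ) < P.card := by exact_mod_cast hPe.card_pos
    have h5 : ‖∑ a ∈ P, ∑ b ∈ P, χ ((a.1 + t * a.2) - (b.1 + t * b.2))‖ ≤
        ∑ b ∈ P, ‖∑ a ∈ P, (1 : ℂ) * χ ((a.1 + t * a.2) - (b.1 + t * b.2))‖ := by
      rw [sum_comm]
      refine (norm_sum_le _ _).trans (sum_le_sum fun b _ => ?_)
      simp only [one_mul, le_refl]
    refine lt_of_lt_of_le ?_ (ht.trans h5)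
    have h6 : (P.card : ℝ) ≤ (p : ℝ) ^ 2 := by
      have h7 := card_le_univ P
      rw [Fintype.card_prod, ZMod.card] at h7
      rw [sq]
      exact_mod_cast h7
    have h7 : (P.card : ℝ) ^ (2 - e) = (P.card : ℝ) ^ (-e) * (P.card * P.card) := by
      rw [show 2 - e = -e + 1 + 1 by ring, Real.rpow_add_one hPc.ne', Real.rpow_add_one hPc.ne']
      ring
    rw [h7]
    refine mul_lt_mul_of_pos_right ?_ (by positivity)
    calc (p : ℝ) ^ (-c) < (p : ℝ) ^ (-(2 * e)) :=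
          Real.rpow_lt_rpow_of_exponent_lt hp1' (by linarith)
      _ = ((p : ℝ) ^ 2) ^ (-e) := by
          rw [← Real.rpow_natCast, ← Real.rpow_mul hp0.le]
          congr 1
          push_cast
          ring
      _ ≤ (P.card : ℝ) ^ (-e) := Real.rpow_le_rpow_of_nonpos hPc h6 (by linarith)
  have h5 := Set.ncard_le_ncard h4 (Set.toFinite _)
  calc _ ≤ ({t : ZMod p | (p : ℝ) ^ (-c) * (P.card * P.card) <
        ∑ b ∈ P, ‖∑ a ∈ P, (1 : ℂ) * χ ((a.1 + t * a.2) - (b.1 + t * b.2))‖}.ncard : ℝ) := by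
        exact_mod_cast h5
    _ ≤ _ := h3.trans (Real.rpow_le_rpow_of_exponent_le hp1'.le (by linarith))

end Pool.Agent.Y881.DS
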