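import Pool.Agent.Y881.DS.Few
import Pool.Agent.TH7.PG.Local

set_option autoImplicit false
set_option linter.unusedSectionVars false

/-! # Sets nearly invariant under a short progression: the combinatorial part -/

open Finset

namespace Pool.Agent.Y881.DS

open Pool.Agent.Y881.SP Pool.Agent.TH7.PG

section
variable {p : ℕ} [Fact p.Prime]

open Classical in
/-- the number of elements of `A` in the window of radius `l` around `a` (direction `z`) -/
noncomputable def nb (A : Finset (ZMod p)) (l : ℕ) (z a : ZMod p) : ℕ :=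
  ((Finset.Ioo (-(l : ℤ)) l).filter fun j : ℤ => a + (j : ZMod p) * z ∈ A).card

theorem dn_mono (A : Finset (ZMod p)) {l l' : ℕ} (h : l ≤ l') (z : ZMod p) :
    dn A l z ⊆ dn A l' z := by
  classical
  intro t ht
  obtain ⟨u, hu, rfl⟩ := mem_image.1 ht
  exact mem_image.2 ⟨(u.1, ⟨u.2, lt_of_lt_of_le u.2.2 h⟩),
    mem_product.2 ⟨(mem_product.1 hu).1, mem_univ _⟩, rfl⟩

theorem mem_dn (A : Finset (ZMod p)) (l : ℕ) (z a : ZMod p) (ha : a ∈ A) (i : ℕ) (hi : i < l) :
    a - (i : ZMod p) * z ∈ dn A l z := by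
  classical
  exact mem_image.2 ⟨(a, ⟨i, hi⟩), mem_product.2 ⟨ha, mem_univ _⟩, rfl⟩

theorem dn_sub (A A' : Finset (ZMod p)) (h : A ⊆ A') (l : ℕ) (z : ZMod p) :
    dn A l z ⊆ dn A' l z := by
  classical
  intro t ht
  obtain ⟨u, hu, rfl⟩ := mem_image.1 ht
  exact mem_image.2 ⟨u, mem_product.2 ⟨h (mem_product.1 hu).1, mem_univ _⟩, rfl⟩

open Classical in
/-- the locally sparse part of `A` is small -/
theorem poor_card (A : Finset (ZMod p)) (l : ℕ) (hl : 0 < l) (z : ZMod p) (ρ : ℝ) (hρ : 0 ≤ ρ) :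
    ((A.filter fun a => (nb A l z a : ℝ) < ρ * l).card : ℝ) ≤ ρ * (dn A l z).card := by
  set P := A.filter fun a => (nb A l z a : ℝ) < ρ * l with hP
  have hl0 : (0 : ℝ) < l := by exact_mod_cast hl
  have h1 : (P ×ˢ (univ : Finset (Fin l))).card = ∑ t ∈ dn A l z,
      ((P ×ˢ (univ : Finset (Fin l))).filter fun u => u.1 - ((u.2 : ℕ) : ZMod p) * z = t).card := by
    refine card_eq_sum_card_fiberwise ?_
    intro u hu
    have hu1 := mem_product.1 (mem_coe.1 hu)
    exact mem_coe.2 (mem_dn A l z u.1 (mem_filter.1 hu1.1).1 u.2 u.2.2)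
  have h2 : ∀ t ∈ dn A l z, (((P ×ˢ (univ : Finset (Fin l))).filter
      fun u => u.1 - ((u.2 : ℕ) : ZMod p) * z = t).card : ℝ) ≤ ρ * l := by
    intro t _
    set F := (P ×ˢ (univ : Finset (Fin l))).filter
      fun u => u.1 - ((u.2 : ℕ) : ZMod p) * z = t with hF
    rcases F.eq_empty_or_nonempty with h | ⟨u₀, hu₀⟩
    · rw [h]; simp; positivity
    · have h3 := mem_filter.1 hu₀
      have h4 := (mem_filter.1 (mem_product.1 h3.1).1).2
      refine le_trans ?_ h4.le
      have h5 : F.card ≤ nb A l z u₀.1 := by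
        unfold nb
        refine card_le_card_of_injOn (fun u => ((u.2 : ℕ) : ℤ) - ((u₀.2 : ℕ) : ℤ)) ?_ ?_
        · intro u hu
          have h6 := mem_filter.1 (mem_coe.1 hu)
          have h7 := (mem_filter.1 (mem_product.1 h6.1).1).1
          refine mem_coe.2 (mem_filter.2 ⟨?_, ?_⟩)
          · show ((u.2 : ℕ) : ℤ) - ((u₀.2 : ℕ) : ℤ) ∈ Finset.Ioo (-(l : ℤ)) l
            rw [mem_Ioo]
            have a1 := u.2.2
            have a2 := u₀.2.2
            constructor <;> omega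
          · have e : u₀.1 + (((((u.2 : ℕ) : ℤ) - ((u₀.2 : ℕ) : ℤ) : ℤ)) : ZMod p) * z = u.1 := by
              push_cast
              have e1 := h6.2
              have e2 := h3.2
              rw [← e2] at e1
              linear_combination -e1
            show u₀.1 + (((((u.2 : ℕ) : ℤ) - ((u₀.2 : ℕ) : ℤ) : ℤ)) : ZMod p) * z ∈ A
            rw [e]
            exact h7
        · intro u hu v hv huv
          have h6 := (mem_filter.1 (mem_coe.1 hu)).2
          have h7 := (mem_filter.1 (mem_coe.1 hv)).2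
          have h8 : (u.2 : ℕ) = (v.2 : ℕ) := by
            have : ((u.2 : ℕ) : ℤ) - ((u₀.2 : ℕ) : ℤ) = ((v.2 : ℕ) : ℤ) - ((u₀.2 : ℕ) : ℤ) := huv
            omega
          have h9 : u.2 = v.2 := Fin.ext h8
          refine Prod.ext ?_ h9
          rw [h8, ← h7] at h6
          exact sub_left_inj.1 h6
      exact_mod_cast h5
  have h3 : (P.card : ℝ) * l ≤ (dn A l z).card * (ρ * l) := by
    have e : ((P ×ˢ (univ : Finset (Fin l))).card : ℝ) = (P.card : ℝ) * l := by
      rw [card_product, card_univ, Fintype.card_fin]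
      push_cast
      ring
    rw [← e, h1]
    push_cast
    calc _ ≤ ∑ _t ∈ dn A l z, ρ * (l : ℝ) := sum_le_sum h2
      _ = _ := by rw [sum_const, nsmul_eq_mul]
  have h4 : (P.card : ℝ) * l ≤ (ρ * (dn A l z).card) * l := by
    calc _ ≤ _ := h3
      _ = _ := by ring
  exact le_of_mul_le_mul_right h4 hl0

open Classical in
/-- every element of `A₁ - {0, ..., l-1} z` has many elements of `A` around it -/
theorem rich_near (A A₁ : Finset (ZMod p)) (l : ℕ) (z : ZMod p) (ρ : ℝ)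
    (hA : ∀ a ∈ A₁, ρ * l ≤ nb A l z a) (t : ZMod p) (ht : t ∈ dn A₁ l z) :
    ρ * l ≤ (((Finset.Ioo (-(l : ℤ)) (2 * l)).filter
      fun j : ℤ => t + (j : ZMod p) * z ∈ A).card : ℝ) := by
  obtain ⟨u, hu, rfl⟩ := mem_image.1 ht
  have hu1 := (mem_product.1 hu).1
  refine (hA u.1 hu1).trans ?_
  have h1 : nb A l z u.1 ≤ ((Finset.Ioo (-(l : ℤ)) (2 * l)).filter
      fun j : ℤ => (u.1 - ((u.2 : ℕ) : ZMod p) * z) + (j : ZMod p) * z ∈ A).card := by
    unfold nb
    refine card_le_card_of_injOn (fun j : ℤ => j + ((u.2 : ℕ) : ℤ)) ?_ ?_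
    · intro j hj
      have h2 := mem_filter.1 (mem_coe.1 hj)
      have h3 := mem_Ioo.1 h2.1
      have h4 := u.2.2
      have h5 : j + ((u.2 : ℕ) : ℤ) ∈ Finset.Ioo (-(l : ℤ)) (2 * l) := by
        rw [mem_Ioo]
        constructor <;> omega
      refine mem_coe.2 (mem_filter.2 ⟨h5, ?_⟩)
      have e : (u.1 - ((u.2 : ℕ) : ZMod p) * z) + ((j + ((u.2 : ℕ) : ℤ) : ℤ) : ZMod p) * z =
          u.1 + (j : ZMod p) * z := by
        push_cast
        ring
      show (u.1 - ((u.2 : ℕ) : ZMod p) * z) + ((j + ((u.2 : ℕ) : ℤ) : ℤ) : ZMod p) * z ∈ A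
      rw [e]
      exact h2.2
    · intro a _ b _ hab
      exact add_right_cancel hab
  exact_mod_cast h1

open Classical in
theorem rich_count (A B A₁ B₁ : Finset (ZMod p)) (l : ℕ) (z z' : ZMod p) (ρ : ℝ) (hρ : 0 < ρ)
    (hl : 0 < l)
    (hA : ∀ a ∈ A₁, ρ * l ≤ nb A l z a) (hB : ∀ b ∈ B₁, ρ * l ≤ nb B l z' b)
    (Z : Finset (ZMod p)) (m : ℝ)
    (hAB : ∀ Y : Finset (ZMod p), Y.card ≤ Z.card →
      (((A ×ˢ B).filter fun t => t.1 + t.2 ∈ Y).card : ℝ) ≤ m) :
    ((((dn A₁ l z) ×ˢ (dn B₁ l z')).filter fun t => t.1 + t.2 ∈ Z).card : ℝ) ≤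
      9 * m / ρ ^ 2 := by
  set F := ((dn A₁ l z) ×ˢ (dn B₁ l z')).filter fun t => t.1 + t.2 ∈ Z with hF
  set J := Finset.Ioo (-(l : ℤ)) (2 * l) with hJ
  have hl0 : (0 : ℝ) < l := by exact_mod_cast hl
  have hm : 0 ≤ m := le_trans (Nat.cast_nonneg _) (hAB ∅ (by simp))
  have hJc : (J.card : ℝ) ≤ 3 * l := by
    rw [hJ, Int.card_Ioo]
    have h1 : (2 * (l : ℤ) - -(l : ℤ) - 1).toNat ≤ 3 * l := by omega
    exact_mod_cast h1
  have h1 : ∀ t ∈ F, (ρ * l) ^ 2 ≤
      ∑ j ∈ J, ∑ j' ∈ J, if t.1 + (j : ZMod p) * z ∈ A ∧ t.2 + (j' : ZMod p) * z' ∈ B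
        then (1 : ℝ) else 0 := by
    intro t ht
    have h2 := mem_product.1 (mem_filter.1 ht).1
    have h3 := rich_near A A₁ l z ρ hA t.1 h2.1
    have h4 := rich_near B B₁ l z' ρ hB t.2 h2.2
    have e : ∑ j ∈ J, ∑ j' ∈ J, (if t.1 + (j : ZMod p) * z ∈ A ∧ t.2 + (j' : ZMod p) * z' ∈ B
        then (1 : ℝ) else 0) =
        ((J.filter fun j : ℤ => t.1 + (j : ZMod p) * z ∈ A).card : ℝ) *
        ((J.filter fun j : ℤ => t.2 + (j : ZMod p) * z' ∈ B).card : ℝ) := by
      rw [card_filter, card_filter]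
      push_cast
      rw [sum_mul_sum]
      refine sum_congr rfl fun j _ => sum_congr rfl fun j' _ => ?_
      by_cases hj : t.1 + (j : ZMod p) * z ∈ A <;> by_cases hj' : t.2 + (j' : ZMod p) * z' ∈ B <;>
        simp [hj, hj']
    rw [e, pow_two]
    exact mul_le_mul h3 h4 (by positivity) (Nat.cast_nonneg _)
  have h2 : (F.card : ℝ) * (ρ * l) ^ 2 ≤ (3 * l) ^ 2 * m := by
    calc (F.card : ℝ) * (ρ * l) ^ 2 = ∑ _t ∈ F, (ρ * l) ^ 2 := by rw [sum_const, nsmul_eq_mul]
      _ ≤ ∑ t ∈ F, ∑ j ∈ J, ∑ j' ∈ J,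
          (if t.1 + (j : ZMod p) * z ∈ A ∧ t.2 + (j' : ZMod p) * z' ∈ B
            then (1 : ℝ) else 0) := sum_le_sum h1
      _ = ∑ j ∈ J, ∑ j' ∈ J, ∑ t ∈ F,
          (if t.1 + (j : ZMod p) * z ∈ A ∧ t.2 + (j' : ZMod p) * z' ∈ B
            then (1 : ℝ) else 0) := by
          rw [sum_comm]
          refine sum_congr rfl fun j _ => ?_
          rw [sum_comm]
      _ ≤ ∑ _j ∈ J, ∑ _j' ∈ J, m := by
          refine sum_le_sum fun j _ => sum_le_sum fun j' _ => ?_
          set Y := Z.image fun x => x + (j : ZMod p) * z + (j' : ZMod p) * z' with hY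
          have h3 := hAB Y card_image_le
          refine le_trans ?_ h3
          rw [sum_boole]
          have h4 : (F.filter fun t => t.1 + (j : ZMod p) * z ∈ A ∧
              t.2 + (j' : ZMod p) * z' ∈ B).card ≤
              ((A ×ˢ B).filter fun t => t.1 + t.2 ∈ Y).card := by
            refine card_le_card_of_injOn
              (fun t => (t.1 + (j : ZMod p) * z, t.2 + (j' : ZMod p) * z')) ?_ ?_
            · intro t ht
              have h5 := mem_filter.1 (mem_coe.1 ht)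
              have h6 := (mem_filter.1 h5.1).2
              refine mem_coe.2 (mem_filter.2 ⟨mem_product.2 h5.2, mem_image.2 ⟨_, h6, ?_⟩⟩)
              show t.1 + t.2 + (j : ZMod p) * z + (j' : ZMod p) * z' =
                (t.1 + (j : ZMod p) * z) + (t.2 + (j' : ZMod p) * z')
              ring
            · intro a _ b _ hab
              have h5 := (Prod.ext_iff.1 hab)
              exact Prod.ext (add_right_cancel h5.1) (add_right_cancel h5.2)
          exact_mod_cast h4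
      _ = (J.card : ℝ) * J.card * m := by
          rw [sum_const, sum_const, nsmul_eq_mul, nsmul_eq_mul]
          ring
      _ ≤ (3 * l) * (3 * l) * m := by
          refine mul_le_mul_of_nonneg_right ?_ hm
          exact mul_le_mul hJc hJc (Nat.cast_nonneg _) (by positivity)
      _ = (3 * l) ^ 2 * m := by ring
  rw [le_div_iff₀ (by positivity)]
  have h3 : ((F.card : ℝ) * ρ ^ 2) * (l : ℝ) ^ 2 ≤ (9 * m) * (l : ℝ) ^ 2 := by
    calc _ = (F.card : ℝ) * (ρ * l) ^ 2 := by ring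
      _ ≤ _ := h2
      _ = _ := by ring
  exact le_of_mul_le_mul_right h3 (by positivity)

open Classical in
/-- the bilinear form after shifting by multiples of `z` and `z'` -/
theorem shifted (χ : DirichletCharacter ℂ p) (L U W : ℕ) (hL : 1 ≤ L) (Bd : ℝ) (hBd : 0 ≤ Bd)
    (z z' : ZMod p) (hz : z ≠ 0) (A₁ B₁ Aw T : Finset (ZMod p))
    (hAw : ∀ w ∈ Aw, ∃ n : ℕ, n < W ∧ (n : ZMod p) = w)
    (hT : ∀ u ∈ T, u ≠ 0 ∧ ∃ n : ℕ, n ≤ U ∧ (n : ZMod p) = u)
    (hAw0 : Aw.Nonempty) (hT0 : T.Nonempty) (θ : ℝ) (hθ : 0 ≤ θ)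
    (f g : ZMod p → ℂ) (hf : ∀ x, ‖f x‖ ≤ 1) (hg : ∀ x, ‖g x‖ ≤ 1) :
    ‖∑ a ∈ A₁, ∑ b ∈ B₁, f a * g b * χ (a + b)‖ ≤
      (Real.sqrt ((1 + Bd) / L) + θ) *
        (((dn A₁ (L * U + W) z).card : ℝ) * (dn B₁ (L * U + W) z').card) +
      ((((dn A₁ (L * U + W) z) ×ˢ (dn B₁ (L * U + W) z')).filter fun t => t.1 + t.2 ∈
        (((univ : Finset (ZMod p)).filter fun s => θ * (Aw.card * T.card) <
          (((Aw ×ˢ T).filter fun r => (r.1 + s) / r.2 ∈ Bad χ L Bd (z' / z)).card : ℝ)).image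
            fun s => s * z)).card : ℝ) := by
  set l := L * U + W with hl
  set DA := dn A₁ l z with hDA
  set DB := dn B₁ l z' with hDB
  set X := Bad χ L Bd (z' / z) with hX
  set W₀ := (univ : Finset (ZMod p)).filter fun s => θ * (Aw.card * T.card) <
          (((Aw ×ˢ T).filter fun r => (r.1 + s) / r.2 ∈ X).card : ℝ) with hW₀
  set S := ‖∑ a ∈ A₁, ∑ b ∈ B₁, f a * g b * χ (a + b)‖ with hS
  set R := Real.sqrt ((1 + Bd) / L) with hR
  have hR0 : 0 ≤ R := Real.sqrt_nonneg _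
  have hAwc : (0 : ℝ) < Aw.card := by exact_mod_cast card_pos.2 hAw0
  have hTc : (0 : ℝ) < T.card := by exact_mod_cast card_pos.2 hT0
  -- one shift
  have h1 : ∀ r ∈ Aw ×ˢ T, S ≤ R * ((DA.card : ℝ) * DB.card) +
      (((DA ×ˢ DB).filter fun t => (r.1 + (t.1 + t.2) / z) / r.2 ∈ X).card : ℝ) := by
    intro r hr
    obtain ⟨w, hwW, hw⟩ := hAw r.1 (mem_product.1 hr).1
    obtain ⟨hu0, u, huU, hu⟩ := hT r.2 (mem_product.1 hr).2
    have hu1 : 1 ≤ u := by
      rcases Nat.eq_zero_or_pos u with h | h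
      · rw [h, Nat.cast_zero] at hu
        exact absurd hu.symm hu0
      · exact h
    have hmem : ∀ (C : Finset (ZMod p)) (y : ZMod p), ∀ a ∈ C, ∀ i : Fin L,
        a - ((i : ℕ) : ZMod p) * (r.2 * y) ∈ dn C (L * U) y := by
      intro C y a ha i
      have e : ((i : ℕ) : ZMod p) * (r.2 * y) = (((i : ℕ) * u : ℕ) : ZMod p) * y := by
        rw [← hu]
        push_cast
        ring
      rw [e]
      refine mem_dn C _ y a ha _ ?_
      calc (i : ℕ) * u < L * u := Nat.mul_lt_mul_of_pos_right i.2 hu1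
        _ ≤ L * U := Nat.mul_le_mul_left _ huU
    have h2 := shift_bound χ L hL Bd hBd (r.2 * z) (r.2 * z') (mul_ne_zero hu0 hz) A₁ B₁
      (dn A₁ (L * U) z) (dn B₁ (L * U) z') (hmem A₁ z) (hmem B₁ z') f g hf hg
    have e1 : r.2 * z' / (r.2 * z) = z' / z := mul_div_mul_left _ _ hu0
    rw [e1] at h2
    refine h2.trans (add_le_add ?_ ?_)
    · refine mul_le_mul_of_nonneg_left ?_ hR0
      refine mul_le_mul ?_ ?_ (Nat.cast_nonneg _) (Nat.cast_nonneg _)
      · exact_mod_cast card_le_card (dn_mono A₁ (by omega) z)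
      · exact_mod_cast card_le_card (dn_mono B₁ (by omega) z')
    · have h3 : (((dn A₁ (L * U) z) ×ˢ (dn B₁ (L * U) z')).filter
          fun t => (t.1 + t.2) / (r.2 * z) ∈ X).card ≤
          ((DA ×ˢ DB).filter fun t => (r.1 + (t.1 + t.2) / z) / r.2 ∈ X).card := by
        refine card_le_card_of_injOn (fun t => (t.1 - r.1 * z, t.2)) ?_ ?_
        · intro t ht
          have h4 := mem_filter.1 (mem_coe.1 ht)
          have h5 := mem_product.1 h4.1
          refine mem_coe.2 (mem_filter.2 ⟨mem_product.2 ⟨?_, dn_mono B₁ (by omega) z' h5.2⟩, ?_⟩)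
          · obtain ⟨v, hv, hv2⟩ := mem_image.1 h5.1
            show t.1 - r.1 * z ∈ DA
            have e : t.1 - r.1 * z = v.1 - (((v.2 : ℕ) + w : ℕ) : ZMod p) * z := by
              rw [← hv2, ← hw]
              push_cast
              ring
            rw [e]
            refine mem_dn A₁ _ z v.1 (mem_product.1 hv).1 _ ?_
            have := v.2.2
            omega
          · show (r.1 + (t.1 - r.1 * z + t.2) / z) / r.2 ∈ X
            have e : (r.1 + (t.1 - r.1 * z + t.2) / z) / r.2 = (t.1 + t.2) / (r.2 * z) := by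
              field_simp
              ring
            rw [e]
            exact h4.2
        · intro a _ b _ hab
          have h4 := Prod.ext_iff.1 hab
          exact Prod.ext (sub_left_inj.1 h4.1) h4.2
      exact_mod_cast h3
  -- sum over the shifts
  have h2 : ((Aw.card : ℝ) * T.card) * S ≤ ((Aw.card : ℝ) * T.card) *
      (R * ((DA.card : ℝ) * DB.card)) + ∑ r ∈ Aw ×ˢ T,
      (((DA ×ˢ DB).filter fun t => (r.1 + (t.1 + t.2) / z) / r.2 ∈ X).card : ℝ) := by
    have e : ((Aw ×ˢ T).card : ℝ) = (Aw.card : ℝ) * T.card := by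
      rw [card_product]; push_cast; rfl
    calc ((Aw.card : ℝ) * T.card) * S = ∑ _r ∈ Aw ×ˢ T, S := by
          rw [sum_const, nsmul_eq_mul, e]
      _ ≤ ∑ r ∈ Aw ×ˢ T, (R * ((DA.card : ℝ) * DB.card) +
          (((DA ×ˢ DB).filter fun t => (r.1 + (t.1 + t.2) / z) / r.2 ∈ X).card : ℝ)) :=
          sum_le_sum h1
      _ = _ := by rw [sum_add_distrib, sum_const, nsmul_eq_mul, e]
  have h3 : ∑ r ∈ Aw ×ˢ T,
      (((DA ×ˢ DB).filter fun t => (r.1 + (t.1 + t.2) / z) / r.2 ∈ X).card : ℝ) =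
      ∑ t ∈ DA ×ˢ DB,
        (((Aw ×ˢ T).filter fun r => (r.1 + (t.1 + t.2) / z) / r.2 ∈ X).card : ℝ) := by
    simp only [card_filter]
    push_cast
    rw [sum_comm]
  have h4 : ∀ t ∈ DA ×ˢ DB,
      (((Aw ×ˢ T).filter fun r => (r.1 + (t.1 + t.2) / z) / r.2 ∈ X).card : ℝ) ≤
      ((Aw.card : ℝ) * T.card) * (θ + if t.1 + t.2 ∈ W₀.image (fun s => s * z) then 1 else 0) := by
    intro t _
    by_cases ht : t.1 + t.2 ∈ W₀.image (fun s => s * z)
    · rw [if_pos ht]
      have h5 : ((Aw ×ˢ T).filter fun r => (r.1 + (t.1 + t.2) / z) / r.2 ∈ X).card ≤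
          (Aw ×ˢ T).card := card_filter_le _ _
      rw [card_product] at h5
      have h6 : (((Aw ×ˢ T).filter fun r => (r.1 + (t.1 + t.2) / z) / r.2 ∈ X).card : ℝ) ≤
          (Aw.card : ℝ) * T.card := by exact_mod_cast h5
      nlinarith [mul_pos hAwc hTc]
    · rw [if_neg ht, add_zero]
      by_contra hcon
      have hcon := not_le.1 hcon
      refine ht (mem_image.2 ⟨(t.1 + t.2) / z, mem_filter.2 ⟨mem_univ _, ?_⟩,
        div_mul_cancel₀ _ hz⟩)
      linarith
  have h5 : ∑ t ∈ DA ×ˢ DB,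
        (((Aw ×ˢ T).filter fun r => (r.1 + (t.1 + t.2) / z) / r.2 ∈ X).card : ℝ) ≤
      ((Aw.card : ℝ) * T.card) * (θ * ((DA.card : ℝ) * DB.card) +
        (((DA ×ˢ DB).filter fun t => t.1 + t.2 ∈ W₀.image fun s => s * z).card : ℝ)) := by
    refine (sum_le_sum h4).trans (le_of_eq ?_)
    rw [← mul_sum, sum_add_distrib, sum_const, nsmul_eq_mul, sum_boole, card_product]
    push_cast
    ring
  rw [h3] at h2
  have h6 : ((Aw.card : ℝ) * T.card) * S ≤ ((Aw.card : ℝ) * T.card) *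
      ((R + θ) * ((DA.card : ℝ) * DB.card) +
        (((DA ×ˢ DB).filter fun t => t.1 + t.2 ∈ W₀.image fun s => s * z).card : ℝ)) := by
    calc _ ≤ _ := h2
      _ ≤ _ := add_le_add le_rfl h5
      _ = _ := by ring
  exact le_of_mul_le_mul_left h6 (mul_pos hAwc hTc)

end

end Pool.Agent.Y881.DS
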