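import Pool.Agent.Y881.DS.Thick

set_option autoImplicit false
set_option linter.unusedSectionVars false

/-! # Sets nearly invariant under a short progression: power saving below the square root barrier -/

open Finset
open scoped Pointwise

namespace Pool.Agent.Y881.DS

open Pool.Agent.Y881.SP Pool.Agent.TH7.PG

/-- numerical part -/
theorem thick_num (x τ κ c c₁ ϑ θ R DA DB a b PA PB F S S₁ : ℝ) (hx : 1 ≤ x)
    (h1 : 4 * τ ≤ κ * c / 2) (h2 : 4 * τ ≤ c₁) (h3 : 8 * τ ≤ ϑ) (h14 : 14 ≤ x ^ τ)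
    (ha : 0 ≤ a) (hb : 0 ≤ b) (hDA0 : 0 ≤ DA) (hDB0 : 0 ≤ DB)
    (hR : R ≤ 2 * x ^ (-(κ * c / 2))) (hθ : θ ≤ x ^ (-c₁))
    (hDA : DA ≤ x ^ τ * a) (hDB : DB ≤ x ^ τ * b)
    (hF : F ≤ 9 * (x ^ (-ϑ) * (a * b)) / (x ^ (-(3 * τ))) ^ 2)
    (hPA : PA ≤ x ^ (-(3 * τ)) * DA) (hPB : PB ≤ x ^ (-(3 * τ)) * DB)
    (hS₁ : S₁ ≤ (R + θ) * (DA * DB) + F) (hS : S ≤ S₁ + PA * b + a * PB) :
    S ≤ x ^ (-τ) * (a * b) := by
  have hx0 : 0 < x := by linarith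
  have hab : 0 ≤ a * b := mul_nonneg ha hb
  have e1 : x ^ (-(2 * τ)) * x ^ τ = x ^ (-τ) := by
    rw [← Real.rpow_add hx0]; congr 1; ring
  have k1 : x ^ (-(κ * c / 2)) ≤ x ^ (-(4 * τ)) :=
    Real.rpow_le_rpow_of_exponent_le hx (by linarith)
  have k2 : x ^ (-c₁) ≤ x ^ (-(4 * τ)) := Real.rpow_le_rpow_of_exponent_le hx (by linarith)
  have k3 : x ^ (-ϑ) ≤ x ^ (-(8 * τ)) := Real.rpow_le_rpow_of_exponent_le hx (by linarith)
  have hDD : DA * DB ≤ x ^ (2 * τ) * (a * b) := by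
    have e : x ^ (2 * τ) = x ^ τ * x ^ τ := by rw [← Real.rpow_add hx0]; congr 1; ring
    rw [e]
    calc DA * DB ≤ (x ^ τ * a) * (x ^ τ * b) := mul_le_mul hDA hDB hDB0 (by positivity)
      _ = _ := by ring
  have b1 : (R + θ) * (DA * DB) ≤ 3 * (x ^ (-(2 * τ)) * (a * b)) := by
    have e : x ^ (-(2 * τ)) = x ^ (-(4 * τ)) * x ^ (2 * τ) := by
      rw [← Real.rpow_add hx0]; congr 1; ring
    rw [e]
    calc (R + θ) * (DA * DB) ≤ (3 * x ^ (-(4 * τ))) * (x ^ (2 * τ) * (a * b)) :=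
          mul_le_mul (by linarith) hDD (by positivity) (by positivity)
      _ = _ := by ring
  have b2 : F ≤ 9 * (x ^ (-(2 * τ)) * (a * b)) := by
    refine hF.trans ?_
    have e : (x ^ (-(3 * τ))) ^ 2 = x ^ (-(6 * τ)) := by
      rw [← Real.rpow_natCast, ← Real.rpow_mul hx0.le]; congr 1; push_cast; ring
    rw [e, div_le_iff₀ (by positivity)]
    have e2 : x ^ (-(2 * τ)) * x ^ (-(6 * τ)) = x ^ (-(8 * τ)) := by
      rw [← Real.rpow_add hx0]; congr 1; ring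
    calc 9 * (x ^ (-ϑ) * (a * b)) ≤ 9 * (x ^ (-(8 * τ)) * (a * b)) := by
          refine mul_le_mul_of_nonneg_left (mul_le_mul_of_nonneg_right k3 hab) (by norm_num)
      _ = _ := by rw [← e2]; ring
  have e3 : x ^ (-(3 * τ)) * x ^ τ = x ^ (-(2 * τ)) := by
    rw [← Real.rpow_add hx0]; congr 1; ring
  have b3 : PA * b ≤ x ^ (-(2 * τ)) * (a * b) := by
    calc PA * b ≤ (x ^ (-(3 * τ)) * (x ^ τ * a)) * b := by
          refine mul_le_mul_of_nonneg_right (hPA.trans ?_) hb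
          exact mul_le_mul_of_nonneg_left hDA (by positivity)
      _ = (x ^ (-(3 * τ)) * x ^ τ) * (a * b) := by ring
      _ = _ := by rw [e3]
  have b4 : a * PB ≤ x ^ (-(2 * τ)) * (a * b) := by
    calc a * PB ≤ a * (x ^ (-(3 * τ)) * (x ^ τ * b)) := by
          refine mul_le_mul_of_nonneg_left (hPB.trans ?_) ha
          exact mul_le_mul_of_nonneg_left hDB (by positivity)
      _ = (x ^ (-(3 * τ)) * x ^ τ) * (a * b) := by ring
      _ = _ := by rw [e3]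
  have hp : 0 ≤ x ^ (-(2 * τ)) * (a * b) := by positivity
  calc S ≤ 14 * (x ^ (-(2 * τ)) * (a * b)) := by linarith
    _ ≤ x ^ τ * (x ^ (-(2 * τ)) * (a * b)) := mul_le_mul_of_nonneg_right h14 hp
    _ = (x ^ (-(2 * τ)) * x ^ τ) * (a * b) := by ring
    _ = _ := by rw [e1]

open Classical in
/-- leaving out small parts of the two sets -/
theorem restrict_sum {p : ℕ} (χ : DirichletCharacter ℂ p) (A B A₁ B₁ : Finset (ZMod p))
    (hA : A₁ ⊆ A) (hB : B₁ ⊆ B) (f g : ZMod p → ℂ) (hf : ∀ x, ‖f x‖ ≤ 1) (hg : ∀ x, ‖g x‖ ≤ 1) :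
    ‖∑ a ∈ A, ∑ b ∈ B, f a * g b * χ (a + b)‖ ≤
      ‖∑ a ∈ A₁, ∑ b ∈ B₁, f a * g b * χ (a + b)‖ + ((A \ A₁).card : ℝ) * B.card +
        (A.card : ℝ) * (B \ B₁).card := by
  have hone : ∀ a b : ZMod p, ‖f a * g b * χ (a + b)‖ ≤ 1 := by
    intro a b
    rw [norm_mul, norm_mul]
    exact mul_le_one₀ (mul_le_one₀ (hf a) (norm_nonneg _) (hg b)) (norm_nonneg _)
      (χ.norm_le_one _)
  have hbd : ∀ X Y : Finset (ZMod p), ‖∑ a ∈ X, ∑ b ∈ Y, f a * g b * χ (a + b)‖ ≤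
      (X.card : ℝ) * Y.card := by
    intro X Y
    refine (norm_sum_le _ _).trans ?_
    calc ∑ a ∈ X, ‖∑ b ∈ Y, f a * g b * χ (a + b)‖ ≤ ∑ _a ∈ X, (Y.card : ℝ) := by
          refine sum_le_sum fun a _ => (norm_sum_le _ _).trans ?_
          calc ∑ b ∈ Y, ‖f a * g b * χ (a + b)‖ ≤ ∑ _b ∈ Y, (1 : ℝ) :=
                sum_le_sum fun b _ => hone a b
            _ = Y.card := by simp
      _ = _ := by rw [sum_const, nsmul_eq_mul]
  have e1 : ∑ a ∈ A, ∑ b ∈ B, f a * g b * χ (a + b) =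
      ∑ a ∈ A \ A₁, ∑ b ∈ B, f a * g b * χ (a + b) +
        (∑ a ∈ A₁, ∑ b ∈ B \ B₁, f a * g b * χ (a + b) +
          ∑ a ∈ A₁, ∑ b ∈ B₁, f a * g b * χ (a + b)) := by
    rw [← sum_add_distrib, ← sum_sdiff hA]
    congr 1
    refine sum_congr rfl fun a _ => ?_
    rw [sum_sdiff hB]
  rw [e1]
  have h1 := norm_add_le (∑ a ∈ A \ A₁, ∑ b ∈ B, f a * g b * χ (a + b))
    (∑ a ∈ A₁, ∑ b ∈ B \ B₁, f a * g b * χ (a + b) +
          ∑ a ∈ A₁, ∑ b ∈ B₁, f a * g b * χ (a + b))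
  have h2 := norm_add_le (∑ a ∈ A₁, ∑ b ∈ B \ B₁, f a * g b * χ (a + b))
    (∑ a ∈ A₁, ∑ b ∈ B₁, f a * g b * χ (a + b))
  have h3 := hbd (A \ A₁) B
  have h4 := hbd A₁ (B \ B₁)
  have h5 : (A₁.card : ℝ) * (B \ B₁).card ≤ (A.card : ℝ) * (B \ B₁).card := by
    refine mul_le_mul_of_nonneg_right ?_ (Nat.cast_nonneg _)
    exact_mod_cast card_le_card hA
  linarith

open Classical in
/-- power saving for two sets nearly invariant under short progressions, unless many sums `a + b`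
lie in a set with fewer than `p^(1/2-κ)` elements -/
theorem thick_local (ε : ℝ) (hε : 0 < ε) : ∃ κ : ℝ, 0 < κ ∧ ∀ ϑ : ℝ, 0 < ϑ →
    ∃ τ : ℝ, 0 < τ ∧ ∃ p₀ : ℕ, ∀ (p : ℕ) [Fact p.Prime], p₀ ≤ p →
    ∀ χ : DirichletCharacter ℂ p, χ ≠ 1 →
    ∀ (A B : Finset (ZMod p)) (z z' : ZMod p) (N N' : ℕ), z ≠ 0 → z' ≠ 0 →
      (p : ℝ) ^ ε ≤ N → (p : ℝ) ^ ε ≤ N' →
      ((A + (range N).image fun i : ℕ => (i : ZMod p) * z).card : ℝ) ≤ (p : ℝ) ^ τ * A.card →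
      ((B + (range N').image fun i : ℕ => (i : ZMod p) * z').card : ℝ) ≤ (p : ℝ) ^ τ * B.card →
      (∀ X : Finset (ZMod p), (X.card : ℝ) ≤ (p : ℝ) ^ (1 / 2 - κ) →
        (((A ×ˢ B).filter fun t => t.1 + t.2 ∈ X).card : ℝ) ≤
          (p : ℝ) ^ (-ϑ) * (A.card * B.card)) →
      ∀ f g : ZMod p → ℂ, ‖∑ a ∈ A, ∑ b ∈ B, f a * g b * χ (a + b)‖ ≤ (p : ℝ) ^ (-τ) *
        ((Real.sqrt A.card * Real.sqrt B.card) *
          (Real.sqrt (∑ a ∈ A, ‖f a‖ ^ 2) * Real.sqrt (∑ b ∈ B, ‖g b‖ ^ 2))) := by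
  obtain ⟨ε₁, hε₁⟩ : ∃ e : ℝ, e = min ε 1 / 8 := ⟨_, rfl⟩
  have hε₁0 : 0 < ε₁ := by rw [hε₁]; positivity
  have hε₁8 : 8 * ε₁ ≤ ε := by rw [hε₁]; linarith [min_le_left ε 1]
  have hε₁1 : 8 * ε₁ ≤ 1 := by rw [hε₁]; linarith [min_le_right ε 1]
  obtain ⟨c, hc, pf, hfew⟩ := rich_few (ε₁ / 2) (by positivity)
  obtain ⟨c₁, hc₁⟩ : ∃ e : ℝ, e = min c (1 / 4) := ⟨_, rfl⟩
  have hc₁0 : 0 < c₁ := by rw [hc₁]; exact lt_min hc (by norm_num)
  have hc₁c : c₁ ≤ c := by rw [hc₁]; exact min_le_left _ _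
  have hc₁4 : c₁ ≤ 1 / 4 := by rw [hc₁]; exact min_le_right _ _
  obtain ⟨κ, hκ⟩ : ∃ e : ℝ, e = min (c₁ / 32) ε₁ := ⟨_, rfl⟩
  have hκ0 : 0 < κ := by rw [hκ]; exact lt_min (by positivity) hε₁0
  have hκc : κ ≤ c₁ / 32 := by rw [hκ]; exact min_le_left _ _
  have hκε : κ ≤ ε₁ := by rw [hκ]; exact min_le_right _ _
  obtain ⟨d, hd⟩ : ∃ e : ℝ, e = c₁ / 64 := ⟨_, rfl⟩
  have hd0 : 0 < d := by rw [hd]; positivity
  have hκd : κ * d ≤ c₁ := by nlinarith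
  refine ⟨c₁ / 2, by positivity, fun ϑ hϑ => ?_⟩
  obtain ⟨τ, hτ⟩ : ∃ e : ℝ, e = min (κ * d) ϑ / 8 := ⟨_, rfl⟩
  have hτ0 : 0 < τ := by
    rw [hτ]
    have : 0 < min (κ * d) ϑ := lt_min (mul_pos hκ0 hd0) hϑ
    positivity
  have hτ1 : 4 * τ ≤ κ * d / 2 := by rw [hτ]; linarith [min_le_left (κ * d) ϑ]
  have hτ2 : 8 * τ ≤ ϑ := by rw [hτ]; linarith [min_le_right (κ * d) ϑ]
  have hτ3 : 4 * τ ≤ c₁ := by linarith
  set k : ℕ := ⌈1 / κ⌉₊ with hk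
  have hκ1 : κ ≤ 1 := by linarith
  have hk1 : 1 ≤ κ * k := by
    have h1 : 1 / κ ≤ k := Nat.le_ceil _
    rw [div_le_iff₀ hκ0] at h1
    linarith
  have hk2 : κ * k ≤ 2 := by
    have h1 : (k : ℝ) < 1 / κ + 1 := Nat.ceil_lt_add_one (by positivity)
    have h2 : κ * k < κ * (1 / κ + 1) := mul_lt_mul_of_pos_left h1 hκ0
    have h3 : κ * (1 / κ + 1) = 1 + κ := by
      field_simp
    linarith
  set C₁ : ℝ := (4 * k : ℝ) ^ (2 * k) * 2 ^ k + 4 * k with hC₁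
  obtain ⟨p₁, hp₁⟩ := large 2 κ hκ0
  obtain ⟨p₂, hp₂⟩ := large C₁ (c₁ / 8) (by positivity)
  obtain ⟨p₃, hp₃⟩ := large 14 τ hτ0
  obtain ⟨p₄, hp₄⟩ := large 3 (τ / 12) (by positivity)
  obtain ⟨p₅, hp₅⟩ := large 2 (ε₁ / 2) (by positivity)
  refine ⟨τ / 4, by positivity, pf + p₁ + p₂ + p₃ + p₄ + p₅, ?_⟩
  intro p hpf hp χ hχ A B z z' N N' hz hz' hN hN' hA hB hAB
  have hpp := hfew p (by omega)
  have hp1 := hp₁ p (by omega)
  have hp2 := hp₂ p (by omega)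
  have hp3 := hp₃ p (by omega)
  have hp4 := hp₄ p (by omega)
  have hp5 := hp₅ p (by omega)
  clear hfew hp₁ hp₂ hp₃ hp₄ hp₅
  have hpR : (1 : ℝ) ≤ p := by exact_mod_cast (Fact.out : p.Prime).one_lt.le
  have hp0 : (0 : ℝ) < p := by linarith
  -- the length `L`
  set L : ℕ := ⌊(p : ℝ) ^ κ⌋₊ with hL
  have hLle : (L : ℝ) ≤ (p : ℝ) ^ κ := Nat.floor_le (by positivity)
  have hLge : (p : ℝ) ^ κ / 2 ≤ L := by
    have := Nat.lt_floor_add_one ((p : ℝ) ^ κ)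
    rw [← hL] at this
    linarith
  have hL1 : 1 ≤ L := by
    rw [hL]
    exact Nat.le_floor (by push_cast; linarith)
  have hL1' : (1 : ℝ) ≤ L := by exact_mod_cast hL1
  have hLp : L ≤ p := by
    have h1 : (L : ℝ) ≤ p := by
      refine hLle.trans ?_
      calc (p : ℝ) ^ κ ≤ (p : ℝ) ^ (1 : ℝ) := Real.rpow_le_rpow_of_exponent_le hpR hκ1
        _ = p := Real.rpow_one _
    exact_mod_cast h1
  -- the length `U`
  set U : ℕ := ⌊(p : ℝ) ^ ε₁⌋₊ with hU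
  have hUle : (U : ℝ) ≤ (p : ℝ) ^ ε₁ := Nat.floor_le (by positivity)
  have hε₁half : (p : ℝ) ^ ε₁ = (p : ℝ) ^ (ε₁ / 2) * (p : ℝ) ^ (ε₁ / 2) := by
    rw [← Real.rpow_add hp0]; congr 1; ring
  have hUge : (p : ℝ) ^ (ε₁ / 2) ≤ U := by
    have h1 := Nat.lt_floor_add_one ((p : ℝ) ^ ε₁)
    rw [← hU] at h1
    have h2 : 2 * (p : ℝ) ^ (ε₁ / 2) ≤ (p : ℝ) ^ ε₁ := by
      rw [hε₁half]
      exact mul_le_mul_of_nonneg_right hp5 (by positivity)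
    linarith
  have hU1 : 1 ≤ U := by
    have h1 : (1 : ℝ) ≤ U := by linarith
    exact_mod_cast h1
  have hUp : U < p := by
    have h1 : (U : ℝ) < p := by
      refine lt_of_le_of_lt hUle ?_
      calc (p : ℝ) ^ ε₁ < (p : ℝ) ^ (1 : ℝ) :=
            Real.rpow_lt_rpow_of_exponent_lt (by exact_mod_cast (Fact.out : p.Prime).one_lt)
              (by linarith)
        _ = p := Real.rpow_one _
    exact_mod_cast h1
  -- the total length
  set l : ℕ := L * U + U with hl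
  have hl0 : 0 < l := by omega
  have hlN : ∀ n : ℕ, (p : ℝ) ^ ε ≤ n → l ≤ n := by
    intro n hn
    have h1 : (l : ℝ) ≤ n := by
      refine le_trans ?_ hn
      have h2 : (l : ℝ) = L * U + U := by rw [hl]; push_cast; ring
      have h3 : (L : ℝ) * U ≤ (p : ℝ) ^ ε₁ * (p : ℝ) ^ ε₁ := by
        refine mul_le_mul (hLle.trans ?_) hUle (Nat.cast_nonneg _) (by positivity)
        exact Real.rpow_le_rpow_of_exponent_le hpR hκε
      have h4 : (U : ℝ) ≤ (p : ℝ) ^ ε₁ * (p : ℝ) ^ ε₁ := by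
        refine hUle.trans ?_
        have : 1 ≤ (p : ℝ) ^ ε₁ := Real.one_le_rpow hpR hε₁0.le
        nlinarith
      have h5 : 2 ≤ (p : ℝ) ^ ε₁ := hp1.trans (Real.rpow_le_rpow_of_exponent_le hpR hκε)
      calc (l : ℝ) ≤ 2 * ((p : ℝ) ^ ε₁ * (p : ℝ) ^ ε₁) := by rw [h2]; linarith
        _ ≤ (p : ℝ) ^ ε₁ * ((p : ℝ) ^ ε₁ * (p : ℝ) ^ ε₁) :=
            mul_le_mul_of_nonneg_right h5 (by positivity)
        _ = (p : ℝ) ^ (3 * ε₁) := by
            rw [← Real.rpow_add hp0, ← Real.rpow_add hp0]; congr 1; ring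
        _ ≤ (p : ℝ) ^ ε := Real.rpow_le_rpow_of_exponent_le hpR (by linarith)
    exact_mod_cast h1
  -- the sets of shifts
  set Aw : Finset (ZMod p) := (range U).image fun n : ℕ => (n : ZMod p) with hAw
  set T : Finset (ZMod p) := (Finset.Icc 1 U).image fun n : ℕ => (n : ZMod p) with hT
  have hinj : ∀ a b : ℕ, a < p → b < p → (a : ZMod p) = (b : ZMod p) → a = b := by
    intro a b ha hb hab
    have h1 := (ZMod.natCast_eq_natCast_iff' a b p).1 hab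
    rwa [Nat.mod_eq_of_lt ha, Nat.mod_eq_of_lt hb] at h1
  have hAwc : Aw.card = U := by
    rw [hAw, card_image_of_injOn, card_range]
    intro a ha b hb hab
    exact hinj a b ((mem_range.1 (mem_coe.1 ha)).trans hUp)
      ((mem_range.1 (mem_coe.1 hb)).trans hUp) hab
  have hTc : T.card = U := by
    rw [hT, card_image_of_injOn, Nat.card_Icc, Nat.add_sub_cancel]
    intro a ha b hb hab
    exact hinj a b (lt_of_le_of_lt (Finset.mem_Icc.1 (mem_coe.1 ha)).2 hUp)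
      (lt_of_le_of_lt (Finset.mem_Icc.1 (mem_coe.1 hb)).2 hUp) hab
  have hAw2 : ∀ w ∈ Aw, ∃ n : ℕ, n < U ∧ (n : ZMod p) = w := by
    intro w hw
    obtain ⟨n, hn, hn2⟩ := mem_image.1 hw
    exact ⟨n, mem_range.1 hn, hn2⟩
  have hT2 : ∀ u ∈ T, u ≠ 0 ∧ ∃ n : ℕ, n ≤ U ∧ (n : ZMod p) = u := by
    intro u hu
    obtain ⟨n, hn, hn2⟩ := mem_image.1 hu
    have hn3 := Finset.mem_Icc.1 hn
    refine ⟨?_, n, hn3.2, hn2⟩
    rintro h0
    rw [h0] at hn2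
    have h1 := hinj n 0 (lt_of_le_of_lt hn3.2 hUp) (Fact.out : p.Prime).pos
      (by rw [hn2, Nat.cast_zero])
    omega
  have hAwne : Aw.Nonempty := by rw [← card_pos, hAwc]; omega
  have hTne : T.Nonempty := by rw [← card_pos, hTc]; omega
  -- the exceptional set
  set Bd : ℝ := (L : ℝ) ^ (1 - d) with hBd
  have hLpos : (0 : ℝ) < L := by linarith
  have hBd0 : 0 < Bd := by positivity
  set G : ℝ := ((4 * k : ℝ) ^ (2 * k) * (L : ℝ) ^ k * p +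
    (4 * k) * (L : ℝ) ^ (2 * k) * Real.sqrt p) / Bd ^ (2 * k) with hG
  have hG0 : 0 ≤ G := by positivity
  set M : ℝ := (L : ℝ) ^ 2 * G with hM
  have hX : ((Bad χ L Bd (z' / z)).card : ℝ) ≤ M :=
    bad_card χ L hLp Bd G hG0 (fun h hh => G_bound χ hχ k L hL1 hLp Bd hBd0 h hh) _
      (div_ne_zero hz' hz)
  have hMle : M ≤ C₁ * (p : ℝ) ^ (1 / 2 + 4 * d + 2 * κ) :=
    M_num p κ d k L hpR hκ0 hd0 (by rw [hd]; linarith) hk1 hk2 hL1' hLge hLle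
  have hMle2 : M ≤ (p : ℝ) ^ (1 / 2 + c₁ / 4) := by
    refine hMle.trans ?_
    calc C₁ * (p : ℝ) ^ (1 / 2 + 4 * d + 2 * κ) ≤
          (p : ℝ) ^ (c₁ / 8) * (p : ℝ) ^ (1 / 2 + 4 * d + 2 * κ) :=
          mul_le_mul_of_nonneg_right hp2 (by positivity)
      _ = (p : ℝ) ^ (c₁ / 8 + (1 / 2 + 4 * d + 2 * κ)) := by rw [← Real.rpow_add hp0]
      _ ≤ (p : ℝ) ^ (1 / 2 + c₁ / 4) := by
          refine Real.rpow_le_rpow_of_exponent_le hpR ?_
          rw [hd]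
          linarith
  have hM1 : (p : ℝ) ^ (1 / 2 + c₁ / 4) + 1 ≤ (p : ℝ) ^ (1 - ε₁ / 2) := by
    have h1 : (1 : ℝ) ≤ (p : ℝ) ^ (1 / 2 + c₁ / 4) := Real.one_le_rpow hpR (by linarith)
    calc (p : ℝ) ^ (1 / 2 + c₁ / 4) + 1 ≤ 2 * (p : ℝ) ^ (1 / 2 + c₁ / 4) := by linarith
      _ ≤ (p : ℝ) ^ (ε₁ / 2) * (p : ℝ) ^ (1 / 2 + c₁ / 4) :=
          mul_le_mul_of_nonneg_right hp5 (by positivity)
      _ = (p : ℝ) ^ (ε₁ / 2 + (1 / 2 + c₁ / 4)) := by rw [← Real.rpow_add hp0]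
      _ ≤ _ := Real.rpow_le_rpow_of_exponent_le hpR (by linarith)
  have hT0 : (0 : ZMod p) ∉ T := fun h => (hT2 0 h).1 rfl
  have hW₀ := hpp Aw T (Bad χ L Bd (z' / z)) hT0 (by rw [hAwc]; exact hUge)
    (by rw [hTc]; exact hUge) ((p : ℝ) ^ (1 / 2 + c₁ / 4)) (hX.trans hMle2) hM1
  have hW₀2 : (p : ℝ) ^ (-c) * (p : ℝ) ^ (1 / 2 + c₁ / 4) ≤ (p : ℝ) ^ (1 / 2 - c₁ / 2) := by
    rw [← Real.rpow_add hp0]
    exact Real.rpow_le_rpow_of_exponent_le hpR (by linarith)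
  have hA' : ((A + (range N).image fun i : ℕ => (i : ZMod p) * z).card : ℝ) ≤
      (p : ℝ) ^ τ * A.card := by
    refine hA.trans (mul_le_mul_of_nonneg_right ?_ (Nat.cast_nonneg _))
    exact Real.rpow_le_rpow_of_exponent_le hpR (by linarith)
  have hB' : ((B + (range N').image fun i : ℕ => (i : ZMod p) * z').card : ℝ) ≤
      (p : ℝ) ^ τ * B.card := by
    refine hB.trans (mul_le_mul_of_nonneg_right ?_ (Nat.cast_nonneg _))
    exact Real.rpow_le_rpow_of_exponent_le hpR (by linarith)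
  have hDA : ((dn A l z).card : ℝ) ≤ (p : ℝ) ^ τ * A.card := by
    refine le_trans ?_ hA'
    exact_mod_cast dn_card A l N (hlN N hN) z
  have hDB : ((dn B l z').card : ℝ) ≤ (p : ℝ) ^ τ * B.card := by
    refine le_trans ?_ hB'
    exact_mod_cast dn_card B l N' (hlN N' hN') z'
  -- the rich parts
  obtain ⟨ρ, hρ⟩ : ∃ ρ : ℝ, ρ = (p : ℝ) ^ (-(3 * τ)) := ⟨_, rfl⟩
  have hρ0 : 0 < ρ := by rw [hρ]; positivity
  set A₁ := A.filter fun a => ¬ ((nb A l z a : ℝ) < ρ * l) with hA₁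
  set B₁ := B.filter fun b => ¬ ((nb B l z' b : ℝ) < ρ * l) with hB₁
  have hA₁s : A \ A₁ = A.filter fun a => (nb A l z a : ℝ) < ρ * l := by
    ext a
    simp only [hA₁, mem_sdiff, mem_filter]
    tauto
  have hB₁s : B \ B₁ = B.filter fun b => (nb B l z' b : ℝ) < ρ * l := by
    ext a
    simp only [hB₁, mem_sdiff, mem_filter]
    tauto
  have hPA : ((A \ A₁).card : ℝ) ≤ ρ * (dn A l z).card := by
    rw [hA₁s]; exact poor_card A l hl0 z ρ hρ0.le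
  have hPB : ((B \ B₁).card : ℝ) ≤ ρ * (dn B l z').card := by
    rw [hB₁s]; exact poor_card B l hl0 z' ρ hρ0.le
  have hbdd : ∀ f g : ZMod p → ℂ, (∀ x, ‖f x‖ ≤ 1) → (∀ x, ‖g x‖ ≤ 1) →
      ‖∑ a ∈ A, ∑ b ∈ B, f a * g b * χ (a + b)‖ ≤
        (p : ℝ) ^ (-τ) * (A.card * B.card) := by
    intro f g hf hg
    have hsh := shifted χ L U U hL1 Bd hBd0.le z z' hz A₁ B₁ Aw T hAw2 hT2 hAwne hTne
      ((p : ℝ) ^ (-c)) (by positivity) f g hf hg
    set Z : Finset (ZMod p) :=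
      ((univ : Finset (ZMod p)).filter fun s => (p : ℝ) ^ (-c) * (Aw.card * T.card) <
          (((Aw ×ˢ T).filter fun r => (r.1 + s) / r.2 ∈ Bad χ L Bd (z' / z)).card : ℝ)).image
            fun s => s * z with hZ
    have hrc := rich_count A B A₁ B₁ l z z' ρ hρ0 hl0
      (fun a ha => not_lt.1 (mem_filter.1 ha).2) (fun b hb => not_lt.1 (mem_filter.1 hb).2)
      Z ((p : ℝ) ^ (-ϑ) * (A.card * B.card)) (by
        intro Y hY
        refine hAB Y ?_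
        refine le_trans ?_ (hW₀.trans hW₀2)
        exact_mod_cast hY.trans card_image_le)
    have hres := restrict_sum χ A B A₁ B₁ (filter_subset _ _) (filter_subset _ _) f g hf hg
    have hR : Real.sqrt ((1 + Bd) / L) ≤ 2 * (p : ℝ) ^ (-(κ * d / 2)) :=
      R_num p κ d L hpR hκ0 hd0 (by rw [hd]; linarith) hL1' hLge
    have hθ : (p : ℝ) ^ (-c) ≤ (p : ℝ) ^ (-c₁) :=
      Real.rpow_le_rpow_of_exponent_le hpR (by linarith)
    have hD1 : ((dn A₁ l z).card : ℝ) * (dn B₁ l z').card ≤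
        ((dn A l z).card : ℝ) * (dn B l z').card := by
      refine mul_le_mul ?_ ?_ (Nat.cast_nonneg _) (Nat.cast_nonneg _)
      · exact_mod_cast card_le_card (dn_sub A₁ A (filter_subset _ _) l z)
      · exact_mod_cast card_le_card (dn_sub B₁ B (filter_subset _ _) l z')
    have hsh2 := hsh.trans (add_le_add (mul_le_mul_of_nonneg_left hD1
      (add_nonneg (Real.sqrt_nonneg _) (by positivity))) le_rfl)
    rw [hρ] at hrc hPA hPB
    exact thick_num p τ κ d c₁ ϑ ((p : ℝ) ^ (-c)) (Real.sqrt ((1 + Bd) / L)) (dn A l z).card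
      (dn B l z').card A.card B.card (A \ A₁).card (B \ B₁).card _ _ _ hpR hτ1 hτ3 hτ2 hp3
      (Nat.cast_nonneg _) (Nat.cast_nonneg _) (Nat.cast_nonneg _) (Nat.cast_nonneg _) hR
      hθ hDA hDB hrc hPA hPB hsh2 hres
  intro f g
  exact linf_to_l2_pow A B (fun a b => χ (a + b)) (fun a b => χ.norm_le_one _) p τ
    hpR hp4 hbdd f g

end Pool.Agent.Y881.DS
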